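import Pool.Agent.Y616.AH.Ev
import Pool.Agent.H620R2.GaugeX.X9

/-! Almost every oracle is good for all machines and all large lengths. -/

set_option autoImplicit false

namespace Pool.Agent.Y616.AH

open Finset MeasureTheory H568R2 Pool.Agent.H676 Pool.Agent.H620R2.Gauge Pool.Agent.NPC
open Pool.Agent.H591R3.PHG Pool.Agent.W911.IB

/-- the numbers -/
theorem asym_aux {s c K B n v v2 L C : ℕ} (hK : K = C * (8 * s + 23) ^ c + 3 * s + 14)
    (hKB : K ≤ B) (hnB : n ≤ s * B) (h2u : B ^ (c + 2) ≤ v) (h22u : B ^ (2 * c + 4) ≤ v2)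
    (hL : L = 2 * n + 1 + B + B * (2 * B + 1)) :
    6 * B + L + n + 3 ≤ v2 ∧ 5 * B + n + 4 ≤ v ∧ 4 * L + 2 * B + 1 ≤ (8 * s + 23) * (B * B) ∧
      C * ((8 * s + 23) * (B * B)) ^ c ≤ v2 := by
  have hC : 0 ≤ C * (8 * s + 23) ^ c := Nat.zero_le _
  generalize hD : C * (8 * s + 23) ^ c = D at hK hC
  have hB1 : 1 ≤ B := by omega
  have hBB : B ≤ B * B := Nat.le_mul_self B
  have hBB1 : 1 ≤ B * B := hB1.trans hBB
  have hnBB : n ≤ s * (B * B) := hnB.trans (Nat.mul_le_mul_left _ hBB)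
  have hLam : L ≤ (2 * s + 5) * (B * B) := by
    have e1 : (2 * s + 5) * (B * B) = 2 * (s * (B * B)) + 5 * (B * B) := by ring
    have e2 : B * (2 * B + 1) = 2 * (B * B) + B := by ring
    rw [e1, hL, e2]
    omega
  refine ⟨?_, ?_, ?_, ?_⟩
  · refine le_trans ?_ h22u
    have e1 : (3 * s + 14) * (B * B) = (2 * s + 5) * (B * B) + s * (B * B) + 9 * (B * B) := by
      ring
    have h5 : 6 * B + L + n + 3 ≤ (3 * s + 14) * (B * B) := by
      rw [e1]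
      omega
    refine h5.trans ?_
    calc (3 * s + 14) * (B * B) ≤ B * (B * B) := Nat.mul_le_mul_right _ (by omega)
      _ = B ^ 3 := by ring
      _ ≤ B ^ (2 * c + 4) := Nat.pow_le_pow_right hB1 (by omega)
  · refine le_trans ?_ h2u
    have e1 : (s + 9) * B = s * B + 9 * B := by ring
    have h5 : 5 * B + n + 4 ≤ (s + 9) * B := by
      rw [e1]
      omega
    refine h5.trans ?_
    calc (s + 9) * B ≤ B * B := Nat.mul_le_mul_right _ (by omega)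
      _ = B ^ 2 := by ring
      _ ≤ B ^ (c + 2) := Nat.pow_le_pow_right hB1 (by omega)
  · have e1 : (8 * s + 23) * (B * B) = 4 * ((2 * s + 5) * (B * B)) + 3 * (B * B) := by ring
    rw [e1]
    omega
  · refine le_trans ?_ h22u
    rw [mul_pow]
    have e2 : (B * B) ^ c = B ^ (2 * c) := by
      rw [← pow_two, ← pow_mul]
    rw [e2, ← mul_assoc, hD]
    have h7 : D ≤ B := by omega
    calc D * B ^ (2 * c) ≤ B * B ^ (2 * c) := Nat.mul_le_mul_right _ h7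
      _ = B ^ (2 * c + 1) := by rw [pow_succ]; ring
      _ ≤ B ^ (2 * c + 4) := Nat.pow_le_pow_right hB1 (by omega)

theorem asym_aux2 {s c K n : ℕ} (hs : s = 8 * (c + 2)) (hn : s * K + 13 ≤ n) :
    K ≤ 2 ^ (n / s) ∧ n ≤ s * 2 ^ (n / s) ∧ (2 ^ (n / s)) ^ (c + 2) ≤ 2 ^ (n / 8) ∧
      (2 ^ (n / s)) ^ (2 * c + 4) ≤ 2 ^ (2 * (n / 8)) := by
  have hs0 : 0 < s := by omega
  have hKt : K ≤ n / s := by
    rw [Nat.le_div_iff_mul_le hs0, Nat.mul_comm]
    exact le_trans (Nat.le_add_right _ _) hn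
  have hst : s * (n / s) ≤ n := Nat.mul_div_le n s
  have h1 : n < s * (n / s + 1) := Nat.lt_mul_div_succ n hs0
  have hu : (c + 2) * (n / s) ≤ n / 8 := by
    rw [Nat.le_div_iff_mul_le (by norm_num)]
    calc (c + 2) * (n / s) * 8 = s * (n / s) := by rw [hs]; ring
      _ ≤ n := hst
  generalize n / s = t at hKt hst h1 hu
  have h2u : (2 ^ t) ^ (c + 2) ≤ 2 ^ (n / 8) := by
    rw [← pow_mul]
    exact Nat.pow_le_pow_right (by norm_num) (by rw [Nat.mul_comm]; exact hu)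
  refine ⟨hKt.trans Nat.lt_two_pow_self.le, ?_, h2u, ?_⟩
  · have h2 : t + 1 ≤ 2 ^ t := Nat.lt_two_pow_self
    exact h1.le.trans (Nat.mul_le_mul_left _ h2)
  · have h3 : (2 ^ t) ^ (2 * c + 4) = (2 ^ t) ^ (c + 2) * (2 ^ t) ^ (c + 2) := by
      rw [← pow_add]; congr 1; ring
    have h4 : 2 ^ (2 * (n / 8)) = 2 ^ (n / 8) * 2 ^ (n / 8) := by
      rw [← pow_add]; congr 1; ring
    rw [h3, h4]
    exact Nat.mul_le_mul h2u h2u

theorem asym (M : Alg) : ∃ s : ℕ, 1 ≤ s ∧ ∀ᶠ n : ℕ in Filter.atTop, 5 ≤ n ∧ n / 8 + 11 ≤ n ∧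
    M.p.eval (4 * Lam n (2 ^ (n / s)) + 2 * 2 ^ (n / s) + 1) ≤ 2 ^ (2 * (n / 8)) ∧
    6 * 2 ^ (n / s) + Lam n (2 ^ (n / s)) + n + 3 ≤ 2 ^ (2 * (n / 8)) ∧
    5 * 2 ^ (n / s) + n + 4 ≤ 2 ^ (n / 8) := by
  obtain ⟨c, hc⟩ : ∃ c, c = M.p.natDegree := ⟨_, rfl⟩
  obtain ⟨s, hs⟩ : ∃ s, s = 8 * (c + 2) := ⟨_, rfl⟩
  obtain ⟨K, hK⟩ : ∃ K, K = M.p.eval 1 * (8 * s + 23) ^ c + 3 * s + 14 := ⟨_, rfl⟩
  refine ⟨s, by omega, ?_⟩
  filter_upwards [Filter.eventually_ge_atTop (s * K + 13)] with n hn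
  obtain ⟨h1, h2, h3, h4⟩ := asym_aux2 hs hn
  have hn13 : 13 ≤ n := le_trans (Nat.le_add_left _ _) hn
  obtain ⟨g1, g2, g3, g4⟩ := asym_aux (n := n) hK h1 h2 h3 h4
    (L := Lam n (2 ^ (n / s))) rfl
  refine ⟨by omega, by omega, ?_, g1, g2⟩
  have h6 := X9.eval_le M.p ((8 * s + 23) * (2 ^ (n / s) * 2 ^ (n / s)))
    (Nat.mul_pos (by omega) (by positivity))
  rw [← hc] at h6
  exact (eval_mono _ g3).trans (h6.trans g4)

/-- the fair coin -/
noncomputable def half : unitInterval := ⟨1 / 2, by norm_num, by norm_num⟩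

theorem Ew_half {N : ℕ} (F : (Fin N → Bool) → ℝ) : Ew (bt (fun _ => half) N) F = Ex unif F := by
  unfold Ew Ex
  refine Finset.sum_congr rfl fun ω _ => ?_
  congr 1
  refine Finset.prod_congr rfl fun i _ => ?_
  unfold bt unif half
  split_ifs <;> norm_num

/-- **No machine with fewer alternations is right**, for almost every oracle. -/
theorem ae_good (M : Alg) : ∃ s : ℕ, 1 ≤ s ∧ ∀ᵐ A ∂(law (fun _ => half)),
    ∀ᶠ n : ℕ in Filter.atTop, ¬ Bad M n (2 ^ (n / 8 + 11)) (2 ^ (n / s)) A := by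
  classical
  obtain ⟨s, hs, hev⟩ := asym M
  obtain ⟨n₀, hn₀⟩ := Filter.eventually_atTop.1 hev
  obtain ⟨qb, hqb⟩ := bad_ev M
  refine ⟨s, hs, ?_⟩
  have h1 : ∀ n : ℕ, (law (fun _ => half))
      {A | n₀ ≤ n ∧ Bad M n (2 ^ (n / 8 + 11)) (2 ^ (n / s)) A} ≤
      ENNReal.ofReal ((1 / 2) ^ n) := by
    intro n
    by_cases hn : n₀ ≤ n
    · obtain ⟨h5, h11, hP, hc1, hc2⟩ := hn₀ n hn
      set B := 2 ^ (n / s) with hB
      set N := 2 ^ (n + (B + 1) * (64 * n) + 8 * n + 1 + (qb.eval (2 * Lam n B + 1) + 1)) with hN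
      have hN1 : 2 ^ (n + (B + 1) * (64 * n) + 8 * n + 1) ≤ N :=
        Nat.pow_le_pow_right (by norm_num) (by omega)
      have hN2 : 2 ^ (qb.eval (2 * Lam n B + 1) + 1) ≤ N :=
        Nat.pow_le_pow_right (by norm_num) (by omega)
      have h2 := ev_bound M (N := N) h5 (Nat.mul_div_le n 8) h11 hN1 hP hc1 hc2
      have h3 := law_local (fun _ => half) N (Ev M n (2 ^ (n / 8 + 11)) B N)
      rw [Ew_half] at h3
      refine (measure_mono fun A hA => ?_).trans (h3.le.trans (ENNReal.ofReal_le_ofReal h2))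
      exact hqb h5 hN1 hN2 A hA.2
    · have : {A | n₀ ≤ n ∧ Bad M n (2 ^ (n / 8 + 11)) (2 ^ (n / s)) A} = (∅ : Set Oracle) := by
        ext A
        simp [hn]
      rw [this, measure_empty]
      exact zero_le
  have h2 : Summable (fun n : ℕ => (1 / 2 : ℝ) ^ n) :=
    summable_geometric_of_lt_one (by norm_num) (by norm_num)
  have h3 : ∑' n : ℕ, (law (fun _ => half))
      {A | n₀ ≤ n ∧ Bad M n (2 ^ (n / 8 + 11)) (2 ^ (n / s)) A} ≠ ⊤ :=
    ne_top_of_le_ne_top h2.tsum_ofReal_ne_top (ENNReal.tsum_le_tsum h1)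
  filter_upwards [ae_eventually_notMem h3] with A hA
  filter_upwards [hA, Filter.eventually_ge_atTop n₀] with n h4 h5 h6
  exact h4 ⟨h5, h6⟩

end Pool.Agent.Y616.AH
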