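import Pool.Agent.Y616.AH.Cp

/-! The computed sizes are right. -/

set_option autoImplicit false

namespace Pool.Agent.Y616.AH

open Finset Pool.Agent.H620R2.Gauge Pool.Agent.H591R3.PHG

theorem size_div {A B : ℕ} (hB : 0 < B) (hAB : B ≤ A) :
    A < 2 ^ Nat.size (A / B) * B ∧ 2 ^ Nat.size (A / B) * B ≤ 2 * A := by
  have h1 : A / B < 2 ^ Nat.size (A / B) := Nat.lt_size_self _
  have h2 : 0 < A / B := Nat.div_pos hAB hB
  constructor
  · exact (Nat.div_lt_iff_lt_mul hB).1 h1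
  · have h3 : 0 < Nat.size (A / B) := Nat.size_pos.2 h2
    obtain ⟨s, hs⟩ : ∃ s, Nat.size (A / B) = s + 1 := ⟨Nat.size (A / B) - 1, by omega⟩
    have h4 : 2 ^ s ≤ A / B := by
      rw [← Nat.lt_size]
      omega
    rw [hs, pow_succ]
    have h5 : 2 ^ s * B ≤ A := (Nat.mul_le_mul_right B h4).trans (Nat.div_mul_le_self A B)
    calc 2 ^ s * 2 * B = 2 * (2 ^ s * B) := by ring
      _ ≤ 2 * A := Nat.mul_le_mul_left _ h5

theorem exp_small : Real.exp (1 / 20) ≤ 20 / 19 := by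
  have h2 := Real.add_one_le_exp (-(1 / 20) : ℝ)
  rw [Real.exp_neg] at h2
  have h3 : (0 : ℝ) < Real.exp (1 / 20) := Real.exp_pos _
  have h4 : (19 / 20 : ℝ) ≤ (Real.exp (1 / 20))⁻¹ := by linarith
  rw [le_inv_comm₀ (by norm_num) h3] at h4
  refine h4.trans (by norm_num)

/-- from the logarithms to the numbers -/
theorem close_mul {x q E : ℝ} (hx : 0 < x) (hq : 0 < q) (h : |Real.log x - Real.log q| ≤ E)
    (hE : E ≤ 1 / 20) : x ≤ 20 / 19 * q ∧ q ≤ 20 / 19 * x ∧ |x - q| ≤ 2 * q * E := by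
  have h1 : x = q * Real.exp (Real.log x - Real.log q) := by
    rw [Real.exp_sub, Real.exp_log hx, Real.exp_log hq]
    field_simp
  have h2 : q = x * Real.exp (Real.log q - Real.log x) := by
    rw [Real.exp_sub, Real.exp_log hx, Real.exp_log hq]
    field_simp
  obtain ⟨h3, h4⟩ := abs_le.1 h
  refine ⟨?_, ?_, ?_⟩
  · calc x = q * Real.exp (Real.log x - Real.log q) := h1
      _ ≤ q * (20 / 19) := mul_le_mul_of_nonneg_left
          ((Real.exp_le_exp.2 (h4.trans hE)).trans exp_small) hq.le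
      _ = _ := by ring
  · calc q = x * Real.exp (Real.log q - Real.log x) := h2
      _ ≤ x * (20 / 19) := mul_le_mul_of_nonneg_left
          ((Real.exp_le_exp.2 (by linarith)).trans exp_small) hx.le
      _ = _ := by ring
  · have h5 : |Real.log x - Real.log q| ≤ 1 := by
      have : (1 / 20 : ℝ) ≤ 1 := by norm_num
      linarith
    have h6 := Real.abs_exp_sub_one_le h5
    have h7 : x - q = q * (Real.exp (Real.log x - Real.log q) - 1) := by
      rw [mul_sub, ← h1, mul_one]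
    rw [h7, abs_mul, abs_of_pos hq]
    have h8 : |Real.exp (Real.log x - Real.log q) - 1| ≤ 2 * E := by linarith
    calc q * |Real.exp (Real.log x - Real.log q) - 1| ≤ q * (2 * E) :=
          mul_le_mul_of_nonneg_left h8 hq.le
      _ = _ := by ring

theorem exp36' (n : ℕ) : 1 / (2 : ℝ) ^ (52 * n) ≤ Real.exp (-(36 * n)) := by
  rw [Real.exp_neg, ← one_div]
  exact one_div_le_one_div_of_le (Real.exp_pos _) (exp36_le n)

theorem tiny8 {n : ℕ} (hn : 5 ≤ n) : (1 : ℝ) / 2 ^ (8 * n) ≤ 1 / 2 ^ 40 := by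
  apply one_div_le_one_div_of_le (by positivity)
  exact pow_le_pow_right₀ (by norm_num) (by omega)

/-- the choice of the size -/
theorem size_ok {n P Q B : ℕ} {q E : ℝ} (hn : 5 ≤ n) (hQ : 0 < Q)
    (hlo : Real.exp (-(36 * n)) ≤ q) (hhi : q ≤ 1 / 2 ^ (8 * n))
    (hE : |Real.log (Q / 2 ^ P) - Real.log q| ≤ E) (hE1 : E ≤ 1 / 20) (hB : 1 ≤ B)
    (hBn : B ≤ 28 * n) :
    Nat.size (B * 2 ^ P / (2 * Q)) ≤ 64 * n ∧
    (19 / 20 * B / 2 : ℝ) ≤ 2 ^ Nat.size (B * 2 ^ P / (2 * Q)) * q ∧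
    2 ^ Nat.size (B * 2 ^ P / (2 * Q)) * q ≤ (20 / 19 * B : ℝ) := by
  have hq0 : 0 < q := lt_of_lt_of_le (Real.exp_pos _) hlo
  have h2P : (0 : ℝ) < 2 ^ P := by positivity
  have hQr : (0 : ℝ) < Q := by exact_mod_cast hQ
  obtain ⟨c1, c2, -⟩ := close_mul (div_pos hQr h2P) hq0 hE hE1
  have hBr : (1 : ℝ) ≤ B := by exact_mod_cast hB
  have hsm := tiny8 hn
  have hQP : 2 * Q ≤ B * 2 ^ P := by
    have h1 : (Q : ℝ) / 2 ^ P ≤ 1 / 2 := by
      refine c1.trans ?_
      have : (20 / 19 : ℝ) * (1 / 2 ^ 40) ≤ 1 / 2 := by norm_num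
      nlinarith
    rw [div_le_iff₀ h2P] at h1
    have h2 : (2 * Q : ℝ) ≤ B * 2 ^ P := by nlinarith
    exact_mod_cast h2
  obtain ⟨h1, h2⟩ := size_div (A := B * 2 ^ P) (B := 2 * Q) (by omega) hQP
  set a := Nat.size (B * 2 ^ P / (2 * Q)) with ha
  have h1r : (B : ℝ) * 2 ^ P < 2 ^ a * (2 * Q) := by exact_mod_cast h1
  have h2r : (2 : ℝ) ^ a * (2 * Q) ≤ 2 * (B * 2 ^ P) := by exact_mod_cast h2
  have h3 : (B : ℝ) / 2 < 2 ^ a * (Q / 2 ^ P) := by
    rw [← mul_div_assoc, lt_div_iff₀ h2P]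
    linarith
  have h4 : (2 : ℝ) ^ a * (Q / 2 ^ P) ≤ B := by
    rw [← mul_div_assoc, div_le_iff₀ h2P]
    linarith
  have h2a : (0 : ℝ) < 2 ^ a := by positivity
  have h5 : (19 / 20 * B / 2 : ℝ) ≤ 2 ^ a * q := by
    have := mul_le_mul_of_nonneg_left c1 h2a.le
    nlinarith
  have h6 : 2 ^ a * q ≤ (20 / 19 * B : ℝ) := by
    have := mul_le_mul_of_nonneg_left c2 h2a.le
    nlinarith
  refine ⟨?_, h5, h6⟩
  by_contra hcon
  have hcon2 : 64 * n ≤ a := by omega
  have h64 : (2 : ℝ) ^ (64 * n) ≤ 2 ^ a := pow_le_pow_right₀ (by norm_num) hcon2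
  have hp2 : 1 / (2 : ℝ) ^ (52 * n) ≤ q := (exp36' n).trans hlo
  have h12 : (2 : ℝ) ^ (12 * n) ≤ 2 ^ a * q := by
    calc (2 : ℝ) ^ (12 * n) = 2 ^ (64 * n) * (1 / 2 ^ (52 * n)) := by
          rw [mul_one_div, eq_div_iff (by positivity), ← pow_add]
          congr 1
          ring
      _ ≤ 2 ^ a * q := by
          apply mul_le_mul h64 hp2 (by positivity) (by positivity)
  have hn2 : (32 : ℝ) * n < 2 ^ (12 * n) := by
    have h3 : (n : ℝ) < 2 ^ n := by
      exact_mod_cast (Nat.lt_two_pow_self (n := n))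
    calc (32 : ℝ) * n < 2 ^ 5 * 2 ^ n := by
          have : (32 : ℝ) = 2 ^ 5 := by norm_num
          rw [this]
          exact mul_lt_mul_of_pos_left h3 (by positivity)
      _ = 2 ^ (5 + n) := by rw [pow_add]
      _ ≤ 2 ^ (12 * n) := pow_le_pow_right₀ (by norm_num) (by omega)
  have hBn' : (B : ℝ) ≤ 28 * n := by exact_mod_cast hBn
  nlinarith

/-- the new error term -/
noncomputable def eps (n P : ℕ) : ℝ := 2 ^ (184 * n + 1) / 2 ^ P

theorem next_ok {n P Q a : ℕ} {q E : ℝ} (hn : 5 ≤ n) (hQ : 0 < Q)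
    (hlo : Real.exp (-(36 * n)) ≤ q) (hhi : q ≤ 1 / 2 ^ (8 * n))
    (hE : |Real.log (Q / 2 ^ P) - Real.log q| ≤ E) (ha : a ≤ 64 * n)
    (h1 : 12 * n ≤ 2 ^ a * q) (h2 : 2 ^ a * q ≤ 32 * n)
    (hsm : 128 * n * E + eps n P ≤ 1 / 20) :
    0 < (sq P)^[a] (2 ^ P - Q) ∧
    |Real.log (((sq P)^[a] (2 ^ P - Q) : ℕ) / 2 ^ P) - Real.log ((1 - q) ^ (2 ^ a))| ≤
      128 * n * E + eps n P ∧
    Real.exp (-(36 * n)) ≤ (1 - q) ^ (2 ^ a) ∧ (1 - q) ^ (2 ^ a) ≤ 1 / 2 ^ (8 * n) := by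
  have hnr : (5 : ℝ) ≤ n := by exact_mod_cast hn
  have hq0 : 0 < q := lt_of_lt_of_le (Real.exp_pos _) hlo
  have h2P : (0 : ℝ) < 2 ^ P := by positivity
  have hQr : (0 : ℝ) < Q := by exact_mod_cast hQ
  have hE0 : 0 ≤ E := (abs_nonneg _).trans hE
  have heps0 : 0 < eps n P := by unfold eps; positivity
  have hE1 : E ≤ 1 / 20 := by nlinarith
  obtain ⟨c1, c2, c3⟩ := close_mul (div_pos hQr h2P) hq0 hE hE1
  have ht := tiny8 hn
  have hq9 : q ≤ 1 / 9 := hhi.trans (ht.trans (by norm_num))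
  have hx2 : (Q : ℝ) / 2 ^ P ≤ 1 / 2 := by
    refine c1.trans ?_
    have : (20 / 19 : ℝ) * (1 / 2 ^ 40) ≤ 1 / 2 := by norm_num
    nlinarith
  have hlo' : Real.exp (-(36 * n)) ≤ (1 - q) ^ (2 ^ a) := by
    have e1 : Real.exp (-(9 / 8 * q)) ≤ 1 - q := by
      rw [Real.exp_neg]
      have e2 := Real.add_one_le_exp (9 / 8 * q)
      calc (Real.exp (9 / 8 * q))⁻¹ ≤ (9 / 8 * q + 1)⁻¹ := inv_anti₀ (by linarith) e2
        _ ≤ 1 - q := by
            rw [inv_le_iff_one_le_mul₀ (by linarith)]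
            nlinarith
    calc Real.exp (-(36 * n)) ≤ Real.exp ((2 ^ a : ℕ) * (-(9 / 8 * q))) := by
          refine Real.exp_le_exp.mpr ?_
          push_cast
          nlinarith
      _ = (Real.exp (-(9 / 8 * q))) ^ (2 ^ a) := Real.exp_nat_mul _ _
      _ ≤ (1 - q) ^ (2 ^ a) := pow_le_pow_left₀ (Real.exp_pos _).le e1 _
  have hhi' : (1 - q) ^ (2 ^ a) ≤ 1 / 2 ^ (8 * n) := by
    calc (1 - q) ^ (2 ^ a) ≤ (Real.exp (-q)) ^ (2 ^ a) := by
          refine pow_le_pow_left₀ (by linarith) ?_ _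
          have := Real.add_one_le_exp (-q)
          linarith
      _ = Real.exp ((2 ^ a : ℕ) * (-q)) := (Real.exp_nat_mul _ _).symm
      _ ≤ Real.exp (-(8 * n)) := by
          refine Real.exp_le_exp.mpr ?_
          push_cast
          linarith
      _ ≤ 1 / 2 ^ (8 * n) := by
          rw [Real.exp_neg, one_div]
          refine inv_anti₀ (by positivity) ?_
          have hexp1 : (2 : ℝ) ≤ Real.exp 1 := by
            have := Real.add_one_le_exp (1 : ℝ)
            linarith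
          calc (2 : ℝ) ^ (8 * n) ≤ (Real.exp 1) ^ (8 * n) :=
                pow_le_pow_left₀ (by norm_num) hexp1 _
            _ = Real.exp (8 * n) := by
                rw [← Real.exp_nat_mul]
                push_cast
                rw [mul_one]
  have hQP : Q ≤ 2 ^ P := by
    have h3 : (Q : ℝ) ≤ 2 ^ P := by
      rw [div_le_iff₀ h2P] at hx2
      linarith
    exact_mod_cast h3
  have hR0 : 0 < 2 ^ P - Q := by
    have h3 : (Q : ℝ) < 2 ^ P := by
      rw [div_le_iff₀ h2P] at hx2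
      linarith
    have h4 : Q < 2 ^ P := by exact_mod_cast h3
    omega
  have hRe : ((2 ^ P - Q : ℕ) : ℝ) / 2 ^ P = 1 - Q / 2 ^ P := by
    rw [Nat.cast_sub hQP]
    push_cast
    field_simp
  have hL0 : |Real.log (((2 ^ P - Q : ℕ) : ℝ) / 2 ^ P) - Real.log (1 - q)| ≤ 4 * q * E := by
    rw [hRe]
    refine (log_one_sub_close hx2 (by linarith)).trans ?_
    linarith
  -- the error of one squaring
  set η : ℝ := 2 ^ (120 * n) / 2 ^ P with hη
  have hη0 : 0 < η := by positivity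
  have hηe : 2 ^ (64 * n) * (2 * η) = eps n P := by
    rw [hη, eps]
    have : (2 : ℝ) ^ (184 * n + 1) = 2 ^ (64 * n) * (2 * 2 ^ (120 * n)) := by
      rw [show 184 * n + 1 = 64 * n + (1 + 120 * n) by ring, pow_add, pow_add, pow_one]
    rw [this]
    ring
  have h64 : (2 : ℝ) ^ a ≤ 2 ^ (64 * n) := pow_le_pow_right₀ (by norm_num) ha
  have h64' : (1 : ℝ) ≤ 2 ^ (64 * n) := one_le_pow₀ (by norm_num)
  have haE : 2 ^ a * (4 * q * E + 2 * η) ≤ 128 * n * E + eps n P := by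
    have e1 : 2 ^ a * (4 * q * E) ≤ 128 * n * E := by
      have := mul_le_mul_of_nonneg_right h2 (show 0 ≤ 4 * E by linarith)
      linarith
    have e2 : 2 ^ a * (2 * η) ≤ eps n P := by
      rw [← hηe]
      exact mul_le_mul_of_nonneg_right h64 (by positivity)
    linarith
  have hη1 : η ≤ 1 / 2 := by
    have e1 : 2 * η ≤ 2 ^ (64 * n) * (2 * η) := le_mul_of_one_le_left (by positivity) h64'
    rw [hηe] at e1
    nlinarith
  have hmain := iter_close (P := P) (R := 2 ^ P - Q) (ρ := 1 - q) (L := 4 * q * E) (η := η)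
    (m := 36 * n) hR0 (by linarith) (by linarith) (by positivity) hL0 hη0.le hη1 a hlo'
    (by linarith) (by
      rw [hη, div_mul_eq_mul_div]
      apply div_le_div_of_nonneg_right _ h2P.le
      have e1 : Real.exp (2 * (36 * n + 1)) ≤ 2 ^ (120 * n) := by
        have e2 : Real.exp (2 * (36 * n + 1)) = Real.exp (36 * n) ^ 2 * Real.exp 1 ^ 2 := by
          rw [← Real.exp_nat_mul, ← Real.exp_nat_mul, ← Real.exp_add]
          congr 1
          push_cast
          ring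
        have e3 : Real.exp 1 ^ 2 ≤ 2 ^ (16 * n) := by
          calc Real.exp 1 ^ 2 ≤ 2.7182818286 ^ 2 :=
                pow_le_pow_left₀ (Real.exp_pos 1).le Real.exp_one_lt_d9.le 2
            _ ≤ 2 ^ 16 := by norm_num
            _ ≤ 2 ^ (16 * n) := pow_le_pow_right₀ (by norm_num) (by omega)
        rw [e2]
        calc Real.exp (36 * n) ^ 2 * Real.exp 1 ^ 2 ≤ (2 ^ (52 * n)) ^ 2 * 2 ^ (16 * n) :=
              mul_le_mul (pow_le_pow_left₀ (Real.exp_pos _).le (exp36_le n) 2) e3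
                (by positivity) (by positivity)
          _ = 2 ^ (120 * n) := by
              rw [← pow_mul, ← pow_add]
              congr 1
              ring
      rw [Real.exp_neg, ← div_eq_mul_inv, le_div_iff₀ (Real.exp_pos _), one_mul]
      exact e1) a le_rfl
  refine ⟨hmain.1, hmain.2.trans ?_, hlo', hhi'⟩
  refine le_trans ?_ haE
  have : (2 : ℝ) ^ a - 1 ≤ 2 ^ a := by linarith
  have := mul_le_mul_of_nonneg_right this (show 0 ≤ 2 * η by positivity)
  linarith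

/-- **The computed sizes are right.** -/
theorem win_szs {n P : ℕ} (hn : 5 ≤ n) : ∀ (k Q : ℕ) (q E : ℝ), 0 < Q →
    Real.exp (-(36 * n)) ≤ q → q ≤ 1 / 2 ^ (8 * n) →
    |Real.log (Q / 2 ^ P) - Real.log q| ≤ E →
    (E + eps n P) * (129 * n) ^ k ≤ 1 / 20 → Win n q (szs n P k Q) := by
  have hnr : (5 : ℝ) ≤ n := by exact_mod_cast hn
  have heps0 : 0 < eps n P := by unfold eps; positivity
  intro k
  induction k with
  | zero =>
    intro Q q E hQ hlo hhi hE hsm
    rw [pow_zero, mul_one] at hsm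
    have h := size_ok (B := 1) hn hQ hlo hhi hE (by linarith) le_rfl (by omega)
    rw [one_mul] at h
    refine ⟨h.1, ?_, ?_⟩
    · refine le_trans ?_ h.2.1
      push_cast
      norm_num
    · refine h.2.2.trans ?_
      push_cast
      norm_num
  | succ k ih =>
    intro Q q E hQ hlo hhi hE hsm
    have hE0 : 0 ≤ E := (abs_nonneg _).trans hE
    have h129 : (1 : ℝ) ≤ (129 * n) ^ k := one_le_pow₀ (by linarith)
    have h3 : (E + eps n P) * (129 * n) ≤ 1 / 20 := by
      have e1 : (E + eps n P) * (129 * n) * 1 ≤ (E + eps n P) * (129 * n) * (129 * n) ^ k :=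
        mul_le_mul_of_nonneg_left h129 (by positivity)
      rw [pow_succ] at hsm
      linarith
    have hE1 : E ≤ 1 / 20 := by nlinarith
    have h := size_ok (B := 28 * n) hn hQ hlo hhi hE hE1 (by omega) le_rfl
    have e0 : 28 * n * 2 ^ P / (2 * Q) = 14 * n * 2 ^ P / Q := by
      rw [show 28 * n * 2 ^ P = 2 * (14 * n * 2 ^ P) by ring]
      exact Nat.mul_div_mul_left _ _ (by norm_num)
    rw [e0] at h
    push_cast at h
    have h1 : (12 : ℝ) * n ≤ 2 ^ Nat.size (14 * n * 2 ^ P / Q) * q := by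
      refine le_trans ?_ h.2.1
      nlinarith
    have h2 : 2 ^ Nat.size (14 * n * 2 ^ P / Q) * q ≤ (32 : ℝ) * n := by
      refine h.2.2.trans ?_
      nlinarith
    have h4 : 128 * n * E + eps n P ≤ 1 / 20 := by nlinarith
    obtain ⟨g1, g2, g3, g4⟩ := next_ok hn hQ hlo hhi hE h.1 h1 h2 h4
    have h5 := ih _ _ _ g1 g3 g4 g2 (by
      rw [pow_succ] at hsm
      have e1 : 128 * n * E + eps n P + eps n P ≤ (E + eps n P) * (129 * n) := by nlinarith
      calc (128 * n * E + eps n P + eps n P) * (129 * n) ^ k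
          ≤ (E + eps n P) * (129 * n) * (129 * n) ^ k :=
            mul_le_mul_of_nonneg_right e1 (by positivity)
        _ ≤ 1 / 20 := by linarith)
    rw [szs]
    cases k with
    | zero => exact ⟨h.1, h1, h2, h5⟩
    | succ k => exact ⟨h.1, h1, h2, h5⟩

/-- the number of digits -/
def dig (n k : ℕ) : ℕ := 184 * n + 6 + k * (n + 8)

/-- The sizes of the `k` levels, the last level first. -/
def sizes (n : ℕ) : ℕ → List ℕ
  | 0 => []
  | k + 1 => szs n (dig n k) k (2 ^ (dig n k - 8 * n))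

theorem length_sizes (n k : ℕ) : (sizes n k).length = k := by
  cases k with
  | zero => rfl
  | succ k => exact length_szs _ _ _ _

theorem win_sizes {n : ℕ} (hn : 5 ≤ n) (k : ℕ) : Win n (1 / 2 ^ (8 * n)) (sizes n (k + 1)) := by
  have hd : 8 * n ≤ dig n k := by unfold dig; omega
  refine win_szs (P := dig n k) hn k (2 ^ (dig n k - 8 * n)) (1 / 2 ^ (8 * n)) 0 (by positivity)
    ?_ le_rfl ?_ ?_
  · have h5 : Real.exp (-(36 * n)) = 1 / (Real.exp 36) ^ n := by
      rw [← Real.exp_nat_mul, Real.exp_neg, mul_comm (n : ℝ) 36]; simp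
    rw [h5, pow_mul]
    apply one_div_le_one_div_of_le (by positivity)
    apply pow_le_pow_left₀ (by positivity)
    have h6 : (2 : ℝ) ^ 11 ≤ Real.exp 36 :=
      exp8_ge.trans (Real.exp_le_exp.mpr (by norm_num))
    calc (2 : ℝ) ^ 8 ≤ 2 ^ 11 := by norm_num
      _ ≤ _ := h6
  · have e : ((2 ^ (dig n k - 8 * n) : ℕ) : ℝ) / 2 ^ dig n k = 1 / 2 ^ (8 * n) := by
      push_cast
      rw [div_eq_div_iff (by positivity) (by positivity), one_mul, ← pow_add]
      congr 1
      omega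
    rw [e, sub_self, abs_zero]
  · rw [zero_add]
    have h129 : (129 * n : ℝ) ^ k ≤ 2 ^ (k * (n + 8)) := by
      rw [mul_comm k, pow_mul]
      apply pow_le_pow_left₀ (by positivity)
      have h3 : (n : ℝ) ≤ 2 ^ n := by
        exact_mod_cast (Nat.lt_two_pow_self (n := n)).le
      rw [pow_add]
      have : (129 : ℝ) ≤ 2 ^ 8 := by norm_num
      nlinarith [pow_pos (show (0 : ℝ) < 2 by norm_num) n]
    have e2 : eps n (dig n k) * 2 ^ (k * (n + 8)) = 1 / 32 := by
      unfold eps dig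
      rw [pow_add (2 : ℝ) (184 * n + 6) (k * (n + 8)), pow_add (2 : ℝ) (184 * n) 6,
        pow_add (2 : ℝ) (184 * n) 1]
      field_simp
      norm_num
    have heps0 : 0 < eps n (dig n k) := by unfold eps; positivity
    calc eps n (dig n k) * (129 * n) ^ k ≤ eps n (dig n k) * 2 ^ (k * (n + 8)) :=
          mul_le_mul_of_nonneg_left h129 heps0.le
      _ = 1 / 32 := e2
      _ ≤ 1 / 20 := by norm_num

end Pool.Agent.Y616.AH
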