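import Pool.Agent.Y616.AH.Pl
import Pool.Agent.Y616.AH.Cq
import Pool.Agent.H591R3.PHG.LangSig

/-! The hard language has `f n` alternations. -/

set_option autoImplicit false

namespace Pool.Agent.Y616.AH

open Pool.Agent.NPC Pool.Agent.H620R2.Gauge Pool.Agent.H591R3.PHG Pool.Agent.H622R2
open Pool.Agent.H591R3.PHG.LangSig (fit length_fit fit_eq poly_fit exists_fit forall_fit
  length_unpair)

/-- one quantified string is read -/
def dstep (s : List Bool × List (List Bool)) : List Bool × List (List Bool) :=
  if s.1 = [] then s else ((unpair s.1).2, (unpair s.1).1 :: s.2)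

/-- the list of the quantified strings, the first one first -/
def dcd (w : List Bool) : List (List Bool) := (dstep^[w.length] (w, [])).2

theorem dstep_nil (acc : List (List Bool)) : dstep ([], acc) = ([], acc) := rfl

theorem dstep_iter_nil (i : ℕ) (acc : List (List Bool)) : dstep^[i] ([], acc) = ([], acc) := by
  induction i with
  | zero => rfl
  | succ i ih => rw [Function.iterate_succ_apply, dstep_nil, ih]

theorem dstep_pair (q w : List Bool) (acc : List (List Bool)) :
    dstep (pairBits q w, acc) = (w, q :: acc) := by
  unfold dstep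
  rw [if_neg (by simp [pairBits]), unpair_pairBits]

/-- the string for the list `qs` (the last one first) -/
def nest : List (List Bool) → List Bool
  | [] => []
  | q :: qs => pairBits q (nest qs)

theorem length_nest_ge : ∀ qs : List (List Bool), qs.length ≤ (nest qs).length := by
  intro qs
  induction qs with
  | nil => simp
  | cons q qs ih =>
    rw [nest, length_pairBits, List.length_cons]
    omega

theorem dstep_nest : ∀ (qs acc : List (List Bool)) (i : ℕ), qs.length ≤ i →
    dstep^[i] (nest qs, acc) = ([], qs.reverse ++ acc) := by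
  intro qs
  induction qs with
  | nil => intro acc i _; exact dstep_iter_nil i acc
  | cons q qs ih =>
    intro acc i hi
    obtain ⟨i, rfl⟩ : ∃ i', i = i' + 1 := ⟨i - 1, by simp at hi; omega⟩
    rw [Function.iterate_succ_apply, nest, dstep_pair, ih _ _ (by simpa using hi)]
    simp

theorem dcd_nest (qs : List (List Bool)) : dcd (nest qs) = qs.reverse := by
  unfold dcd
  rw [dstep_nest qs [] _ (length_nest_ge qs), List.append_nil]

theorem sz_dstep (s : List Bool × List (List Bool)) :
    (dstep s).1.length + ((dstep s).2.map List.length).sum + (dstep s).2.length ≤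
      s.1.length + (s.2.map List.length).sum + s.2.length + 1 := by
  unfold dstep
  split_ifs with h
  · omega
  · have := length_unpair s.1
    simp only [List.map_cons, List.sum_cons, List.length_cons]
    omega

theorem sz_lists_le (l : List (List Bool)) : sz l ≤ 4 * (l.map List.length).sum + 2 * l.length + 1 := by
  induction l with
  | nil => simp
  | cons a l ih =>
    have := sz_listBool_le a
    simp only [sz_list_cons, List.map_cons, List.sum_cons, List.length_cons]
    omega

theorem dstep_iter_bound (w : List Bool) (i : ℕ) :
    (dstep^[i] (w, [])).1.length + ((dstep^[i] (w, [])).2.map List.length).sum +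
      (dstep^[i] (w, [])).2.length ≤ w.length + i := by
  induction i with
  | zero => simp
  | succ i ih =>
    rw [Function.iterate_succ_apply']
    have := sz_dstep (dstep^[i] (w, []))
    omega

theorem poly_dcd : Poly dcd := by
  have h1 : Poly dstep := by
    have hu : Poly (fun s : List Bool × List (List Bool) => unpair s.1) :=
      poly_unpair.comp (Poly.fst Poly.id)
    exact Poly.ite (Poly.decide_eq (Poly.fst Poly.id) (NPC.Poly.const [])) Poly.id
      (Poly.pair (Poly.snd hu) (Poly.cons (Poly.fst hu) (Poly.snd Poly.id)))
  have h2 : Poly (fun w : List Bool => dstep^[w.length] (w, [])) := by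
    refine Poly.iterLen (F := fun _ s => dstep s) Poly.id
      (Poly.pair Poly.id (NPC.Poly.const [])) (h1.comp (Poly.snd Poly.id))
      (Polynomial.C 24 * Polynomial.X + 3) ?_
    intro w i hi
    have e1 := dstep_iter_bound w i
    have e2 := sz_lists_le (dstep^[i] (w, [])).2
    have e3 := sz_listBool_le (dstep^[i] (w, [])).1
    have e4 := sz_listBool_ge w
    have e5 : sz (dstep^[i] (w, [])) = sz (dstep^[i] (w, [])).1 + sz (dstep^[i] (w, [])).2 + 1 :=
      sz_pair _ _
    show sz (dstep^[i] (w, [])) ≤ _
    rw [e5]
    simp only [Polynomial.eval_add, Polynomial.eval_mul, Polynomial.eval_C, Polynomial.eval_X,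
      Polynomial.eval_ofNat]
    omega
  exact Poly.snd h2

/-- a bound for the sizes -/
def bd (n k : ℕ) : ℕ := 14 * n + dig n k

theorem szs_le (n P : ℕ) : ∀ (k Q : ℕ), ∀ a ∈ szs n P k Q, a ≤ 14 * n + P + 1 := by
  intro k
  induction k with
  | zero =>
    intro Q a ha
    rw [szs, List.mem_singleton] at ha
    rw [ha, Nat.size_le]
    calc 2 ^ P / (2 * Q) ≤ 2 ^ P := Nat.div_le_self _ _
      _ < 2 ^ (14 * n + P + 1) := Nat.pow_lt_pow_right (by norm_num) (by omega)
  | succ k ih =>
    intro Q a ha
    rw [szs] at ha
    rcases List.mem_cons.1 ha with rfl | ha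
    · exact (size_le_bound _ _ _).trans (by omega)
    · exact ih _ a ha

theorem dig_mono (n : ℕ) {k k' : ℕ} (h : k ≤ k') : dig n k ≤ dig n k' := by
  unfold dig
  have := Nat.mul_le_mul_right (n + 8) h
  omega

theorem sizes_le (n k : ℕ) : ∀ a ∈ sizes n k, a ≤ bd n k + 1 := by
  cases k with
  | zero => simp [sizes]
  | succ k =>
    intro a ha
    have h1 := szs_le n (dig n k) k _ a ha
    have h2 := dig_mono n (Nat.le_succ k)
    unfold bd
    rw [Nat.succ_eq_add_one] at h2
    omega

theorem UPoly.sub_const {α : Type} [TEnc α] {n : α → ℕ} (hn : UPoly n) (c : ℕ) :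
    UPoly (fun a => n a - c) :=
  UPoly.of_le (Poly.sub hn.toPoly (NPC.Poly.const c)) hn (fun _ => Nat.sub_le _ _)

theorem upoly_dig {α : Type} [TEnc α] {n k : α → ℕ} (hn : UPoly n) (hk : UPoly k) :
    UPoly (fun a => dig (n a) (k a)) :=
  UPoly.add (UPoly.add (uconst_mul hn 184) (UPoly.const 6))
    (UPoly.mul hk (UPoly.add hn (UPoly.const 8)))

theorem poly_sizes {α : Type} [TEnc α] {n k : α → ℕ} (hn : UPoly n) (hk : UPoly k) :
    Poly (fun a => (sizes (n a) (k a)).reverse) := by
  have hk1 : UPoly (fun a => k a - 1) := UPoly.sub_const hk 1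
  have hd := upoly_dig hn hk1
  have h1 : Poly (fun a => (szs (n a) (dig (n a) (k a - 1)) (k a - 1)
      (2 ^ (dig (n a) (k a - 1) - 8 * n a))).reverse) := by
    refine poly_szs hn hd hk1 (poly_two_pow (UPoly.of_le
      (Poly.sub hd.toPoly (uconst_mul hn 8).toPoly) hd (fun _ => Nat.sub_le _ _))) ?_
    intro a
    exact Nat.pow_le_pow_right (by norm_num) (Nat.sub_le _ _)
  refine (Poly.ite (p := fun a => k a = 0) (Poly.decide_eq hk.toPoly (NPC.Poly.const 0))
    (NPC.Poly.const []) h1).congr fun a => ?_
  rcases hka : k a with _ | j
  · simp [sizes]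
  · simp [sizes]

/-- the address -/
def adr (x : List Bool) (qs : List (List Bool)) : List Bool :=
  x ++ (((sizes x.length qs.length).reverse.zip qs).map
    (fun p => fit (List.replicate (min p.1 (bd x.length qs.length + 1)) true) p.2)).flatten

theorem poly_adr : Poly (fun p : List Bool × List (List Bool) => adr p.1 p.2) := by
  have hn : UPoly (fun p : List Bool × List (List Bool) => p.1.length) :=
    UPoly.length (Poly.fst Poly.id)
  have hk : UPoly (fun p : List Bool × List (List Bool) => p.2.length) :=
    UPoly.length (Poly.snd Poly.id)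
  have hb : UPoly (fun p : List Bool × List (List Bool) => bd p.1.length p.2.length + 1) :=
    UPoly.add (UPoly.add (uconst_mul hn 14) (upoly_dig hn hk)) (UPoly.const 1)
  have h1 : Poly (fun p : List Bool × List (List Bool) =>
      (sizes p.1.length p.2.length).reverse.zip p.2) := Poly.zip (poly_sizes hn hk) (Poly.snd Poly.id)
  have h2 : UPoly (fun r : (List Bool × List (List Bool)) × (ℕ × List Bool) =>
      min r.2.1 (bd r.1.1.length r.1.2.length + 1)) :=
    UPoly.of_le (Poly.min (Poly.fst (Poly.snd Poly.id)) (hb.comp (Poly.fst Poly.id)).toPoly)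
      (hb.comp (Poly.fst Poly.id)) (fun r => min_le_right _ _)
  have h3 : Poly (fun r : (List Bool × List (List Bool)) × (ℕ × List Bool) =>
      fit (List.replicate (min r.2.1 (bd r.1.1.length r.1.2.length + 1)) true) r.2.2) := by
    refine poly_fit ?_ (Poly.snd (Poly.snd Poly.id))
    refine (NPC.Poly.map (F := fun _ _ => true) h2 (NPC.Poly.const true)).congr fun r => ?_
    rw [List.map_replicate]
  exact Poly.append (Poly.fst Poly.id) (Poly.flatten (NPC.Poly.map
    (F := fun (p : List Bool × List (List Bool)) (r : ℕ × List Bool) =>
      fit (List.replicate (min r.1 (bd p.1.length p.2.length + 1)) true) r.2) h1 h3))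

/-- the questions to the oracle -/
def Qs (y : List Bool) : List (List Bool) :=
  (List.range (8 * (unpair (unpair y).1).1.length)).map (fun l =>
    adr (unpair (unpair y).1).1 (dcd (unpair y).2) ++
      (List.replicate (min l (8 * (unpair (unpair y).1).1.length)) ()).map (fun _ => true))

theorem poly_Qs : Poly Qs := by
  have h0 : Poly (fun y : List Bool => (unpair (unpair y).1).1) :=
    Poly.fst (poly_unpair.comp (Poly.fst poly_unpair))
  have h1 : Poly (fun y : List Bool => adr (unpair (unpair y).1).1 (dcd (unpair y).2)) :=
    poly_adr.comp (Poly.pair h0 (poly_dcd.comp (Poly.snd poly_unpair)))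
  have h2 : UPoly (fun y : List Bool => 8 * (unpair (unpair y).1).1.length) :=
    uconst_mul (UPoly.length h0) 8
  have h3 : UPoly (fun p : List Bool × ℕ => min p.2 (8 * (unpair (unpair p.1).1).1.length)) :=
    UPoly.of_le (Poly.min (Poly.snd Poly.id) (h2.comp (Poly.fst Poly.id)).toPoly)
      (h2.comp (Poly.fst Poly.id)) (fun p => min_le_right _ _)
  have h4 : Poly (fun p : List Bool × ℕ =>
      adr (unpair (unpair p.1).1).1 (dcd (unpair p.1).2) ++
      (List.replicate (min p.2 (8 * (unpair (unpair p.1).1).1.length)) ()).map
        (fun _ => true)) :=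
    Poly.append (h1.comp (Poly.fst Poly.id))
      (NPC.Poly.map (F := fun _ _ => true) h3 (NPC.Poly.const true))
  exact NPC.Poly.map (F := fun y l => adr (unpair (unpair y).1).1 (dcd (unpair y).2) ++
      (List.replicate (min l (8 * (unpair (unpair y).1).1.length)) ()).map (fun _ => true))
    h2.range h4

theorem bot_eq : ∀ (k : ℕ) (b : Bool), bot b k = (b == decide (k % 2 = 0)) := by
  intro k
  induction k with
  | zero => intro b; simp [bot]
  | succ k ih =>
    intro b
    rw [bot, ih]
    rcases Nat.mod_two_eq_zero_or_one k with h | h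
    · have h2 : (k + 1) % 2 = 1 := by omega
      rw [h, h2]
      cases b <;> rfl
    · have h2 : (k + 1) % 2 = 0 := by omega
      rw [h, h2]
      cases b <;> rfl

/-- The verifier. -/
def Ver (A : Oracle) (y : List Bool) : List Bool :=
  [decide (((Qs y).map A).all (fun b => !b) = !(bot true (dcd (unpair y).2).length))]

theorem isFP_Ver (A : Oracle) : IsFP A (Ver A) := by
  have h1 : Poly (fun p : List Bool × List Bool => p.2.all (fun b => !b)) :=
    Poly.all (p := fun _ b => !b) (Poly.snd Poly.id) (Poly.not (Poly.snd Poly.id))
  have h0 : Poly (fun p : List Bool × List Bool => (dcd (unpair p.1).2).length % 2) :=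
    Poly.mod (Poly.length ((poly_dcd.comp (Poly.snd poly_unpair)).comp (Poly.fst Poly.id)))
      (NPC.Poly.const 2)
  have h3 : Poly (fun p : List Bool × List Bool =>
      !(bot true (dcd (unpair p.1).2).length)) := by
    refine (Poly.not (Poly.decide_eq h0 (NPC.Poly.const 0))).congr fun p => ?_
    rw [bot_eq]
    simp
  have h2 : Poly (fun p : List Bool × List Bool =>
      [decide (p.2.all (fun b => !b) = !(bot true (dcd (unpair p.1).2).length))]) :=
    Poly.cons (Poly.decide_eq h1 h3) (NPC.Poly.const [])
  exact IsFP.tt (A := A) (H := fun p =>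
    [decide (p.2.all (fun b => !b) = !(bot true (dcd (unpair p.1).2).length))]) poly_Qs h2

theorem Ver_iff (A : Oracle) (x h : List Bool) (qs : List (List Bool)) :
    Ver A (pairBits (pairBits x h) (nest qs)) = [true] ↔
      bitv A (8 * x.length) (adr x qs.reverse) = !(bot true qs.length) := by
  have h0 : (unpair (pairBits (pairBits x h) (nest qs))) = (pairBits x h, nest qs) :=
    unpair_pairBits _ _
  have h1 : ((Qs (pairBits (pairBits x h) (nest qs))).map A).all (fun b => !b) =
      bitv A (8 * x.length) (adr x qs.reverse) := by
    rw [Bool.eq_iff_iff]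
    unfold bitv Qs
    rw [List.all_eq_true, decide_eq_true_iff]
    simp only [List.mem_map, List.mem_range, Bool.not_eq_true', List.map_replicate,
      unpair_pairBits, dcd_nest]
    constructor
    · intro h l hl
      have h2 := h (A (adr x qs.reverse ++ List.replicate l true)) ⟨_, ⟨l, hl, rfl⟩, by
        rw [Nat.min_eq_left hl.le]⟩
      exact h2
    · rintro h b ⟨_, ⟨l, hl, rfl⟩, rfl⟩
      rw [Nat.min_eq_left hl.le]
      exact h l hl
  unfold Ver
  rw [h1]
  simp only [unpair_pairBits, dcd_nest, List.length_reverse]
  simp

/-- the hard language -/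
def lang (f : ℕ → ℕ) (A : Oracle) : Set (List Bool) :=
  {x | ((sizes x.length (f x.length)).foldl (fun v a => up a v) (bitv A (8 * x.length))) x =
    false}

/-- the address for the first strings -/
def adp (x : List Bool) (as : List ℕ) (qs : List (List Bool)) : List Bool :=
  x ++ ((as.zip qs).map (fun p => fit (List.replicate p.1 true) p.2)).flatten

theorem adr_eq (x : List Bool) (qs : List (List Bool)) :
    adr x qs = adp x (sizes x.length qs.length).reverse qs := by
  unfold adr adp
  congr 2
  refine List.map_congr_left fun p hp => ?_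
  have h1 : p.1 ∈ (sizes x.length qs.length).reverse := (List.of_mem_zip hp).1
  rw [List.mem_reverse] at h1
  rw [Nat.min_eq_left (sizes_le _ _ _ h1)]

theorem quant_ver (A : Oracle) (x h : List Bool) (K m : ℕ)
    (hm : ∀ a ∈ sizes x.length K, a ≤ m) : ∀ (rs ds : List ℕ) (qs : List (List Bool)) (b : Bool),
    (sizes x.length K).reverse = ds ++ rs → ds.length = qs.length → bot b rs.length = bot true K →
      (Quant m (fun w => Ver A (pairBits (pairBits x h) w)) rs.length b (nest qs) ↔
        (rs.foldr up (bitv A (8 * x.length))) (adp x ds qs.reverse) = !b) := by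
  have hK : (sizes x.length K).reverse.length = K := by
    rw [List.length_reverse, length_sizes]
  intro rs
  induction rs with
  | nil =>
    intro ds qs b h1 h2 h3
    rw [List.append_nil] at h1
    have h4 : qs.length = K := by rw [← h2, ← h1, hK]
    have h5 : adr x qs.reverse = adp x ds qs.reverse := by
      rw [adr_eq, List.length_reverse, h4, h1]
    have h6 := Ver_iff A x h qs
    rw [h5, h4, ← h3] at h6
    show Quant m (fun w => Ver A (pairBits (pairBits x h) w)) 0 b (nest qs) ↔ _
    rw [List.foldr_nil]
    simp only [List.length_nil, bot] at h6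
    cases b <;> exact h6
  | cons a rs ih =>
    intro ds qs b h1 h2 h3
    have hdq : ∀ w : List Bool, adp x (ds ++ [a]) (w :: qs).reverse =
        adp x ds qs.reverse ++ fit (List.replicate a true) w := by
      intro w
      unfold adp
      rw [List.reverse_cons, List.zip_append (by rw [List.length_reverse]; exact h2),
        List.map_append, List.flatten_append, ← List.append_assoc]
      simp
    have key : ∀ w : List Bool, (Quant m (fun w => Ver A (pairBits (pairBits x h) w)) rs.length
        (!b) (pairBits w (nest qs)) ↔ (rs.foldr up (bitv A (8 * x.length)))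
          (adp x ds qs.reverse ++ fit (List.replicate a true) w) = b) := by
      intro w
      have h4 := ih (ds ++ [a]) (w :: qs) (!b) (by rw [h1]; simp) (by simp [h2])
        (by rw [List.length_cons, bot] at h3; exact h3)
      rw [Bool.not_not, hdq] at h4
      exact h4
    have ham : a ≤ m := hm a (by
      have : a ∈ (sizes x.length K).reverse := by rw [h1]; simp
      exact List.mem_reverse.1 this)
    have hfold : ((a :: rs).foldr up (bitv A (8 * x.length))) (adp x ds qs.reverse) =
        decide (∀ i < 2 ^ a, (rs.foldr up (bitv A (8 * x.length)))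
          (adp x ds qs.reverse ++ bitsOf a i) = false) := rfl
    rw [hfold]
    cases b with
    | true =>
      have key' : ∀ w : List Bool, (Quant m (fun w => Ver A (pairBits (pairBits x h) w))
        rs.length false (pairBits w (nest qs)) ↔ _) := key
      rw [List.length_cons, Quant]
      simp only [key']
      rw [exists_fit (fun w => (rs.foldr up (bitv A (8 * x.length)))
        (adp x ds qs.reverse ++ w) = true) (List.replicate a true) (by simp) ham]
      simp
    | false =>
      have key' : ∀ w : List Bool, (Quant m (fun w => Ver A (pairBits (pairBits x h) w))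
        rs.length true (pairBits w (nest qs)) ↔ _) := key
      rw [List.length_cons, Quant]
      simp only [key']
      rw [forall_fit (fun w => (rs.foldr up (bitv A (8 * x.length)))
        (adp x ds qs.reverse ++ w) = false) (List.replicate a true) (by simp) ham]
      simp

/-- **The upper bound.** -/
theorem mem_lang_iff (A : Oracle) (f : ℕ → ℕ) (x h : List Bool) (m : ℕ)
    (hm : bd x.length (f x.length) + 1 ≤ m) :
    x ∈ lang f A ↔
      Quant m (fun w => Ver A (pairBits (pairBits x h) w)) (f x.length) true [] := by
  have h1 := quant_ver A x h (f x.length) m (fun a ha => (sizes_le _ _ a ha).trans hm)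
    (sizes x.length (f x.length)).reverse [] [] true (by simp) rfl
    (by rw [List.length_reverse, length_sizes])
  rw [List.length_reverse, length_sizes] at h1
  have h2 : adp x [] ([] : List (List Bool)).reverse = x := by simp [adp]
  rw [h2, List.foldr_reverse] at h1
  exact h1.symm

end Pool.Agent.Y616.AH
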