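import Pool.Agent.Y616.AH.As
import Pool.Agent.Y616.AH.Vr
import Pool.Agent.H620R2.GaugeR.Seq

/-! The classes with a bounded number of alternations: the separation, and padding. -/

set_option autoImplicit false

namespace Pool.Agent.Y616.AH

open MeasureTheory Pool.Agent.H620R2.Gauge Pool.Agent.NPC Pool.Agent.H622R2
open Pool.Agent.H591R3.PHG Pool.Agent.W911.IB

/-- The language `L` is decided, relative to the oracle `A`, by alternating quantifiers: on inputs of
length `n` there are `f n` alternating quantifiers over strings of length at most `m n`, the first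
one existential if `b` is true, in front of a polynomial-time predicate, which gets the advice
`h n`. -/
def Alternating (A : Oracle) (b : Bool) (f m : ℕ → ℕ) (h : ℕ → List Bool)
    (L : Set (List Bool)) : Prop :=
  ∃ V : List Bool → List Bool, IsFP A V ∧ ∀ x, x ∈ L ↔
    Quant (m x.length) (fun w => V (pairBits (pairBits x (h x.length)) w)) (f x.length) b []

theorem mem_AP (A : Oracle) {f : ℕ → ℕ} {p : Polynomial ℕ} (hp : ∀ n, f n ≤ p.eval n) :
    ∃ q : Polynomial ℕ, Alternating A true f (fun n => q.eval n) (fun _ => []) (lang f A) := by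
  refine ⟨14 * Polynomial.X + (184 * Polynomial.X + 6 + p * (Polynomial.X + 8)) + 1,
    Ver A, isFP_Ver A, fun x => mem_lang_iff A f x [] _ ?_⟩
  unfold bd dig
  have h1 := Nat.mul_le_mul_right (x.length + 8) (hp x.length)
  simp only [Polynomial.eval_add, Polynomial.eval_mul, Polynomial.eval_X, Polynomial.eval_ofNat,
    Polynomial.eval_one]
  omega

/-- **The separation.** -/
theorem not_subexp : ∀ᵐ A ∂(law (fun _ => half)), ∀ (f g m : ℕ → ℕ) (h : ℕ → List Bool) (b : Bool),
    (∃ p : Polynomial ℕ, ∀ n, f n ≤ p.eval n) → (∃ᶠ n in Filter.atTop, g n < f n) →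
    (∀ s : ℕ, ∀ᶠ n in Filter.atTop, m n ^ s ≤ 2 ^ n) →
    (∀ s : ℕ, ∀ᶠ n in Filter.atTop, (h n).length ^ s ≤ 2 ^ n) →
    ¬ Alternating A b g m h (lang f A) := by
  have h1 : ∀ᵐ A ∂(law (fun _ => half)), ∀ M : Alg, ∃ s : ℕ, 1 ≤ s ∧
      ∀ᶠ n : ℕ in Filter.atTop, ¬ Bad M n (2 ^ (n / 8 + 11)) (2 ^ (n / s)) A := by
    rw [ae_all_iff]
    intro M
    obtain ⟨s, hs, hM⟩ := ae_good M
    filter_upwards [hM] with A hA
    exact ⟨s, hs, hA⟩
  filter_upwards [h1] with A hA f g m h b hf hfg hm hh hL
  obtain ⟨p, hp⟩ := hf
  obtain ⟨V, ⟨M, hM⟩, hV⟩ := hL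
  obtain ⟨s, hs, hev⟩ := hA M
  -- subexponential functions are small
  have small : ∀ m : ℕ → ℕ, (∀ s : ℕ, ∀ᶠ n in Filter.atTop, m n ^ s ≤ 2 ^ n) →
      ∀ᶠ n : ℕ in Filter.atTop, m n ≤ 2 ^ (n / s) := by
    intro m hm
    filter_upwards [hm (2 * s), Filter.eventually_ge_atTop s] with n h1 h2
    have h3 : 1 ≤ n / s := by
      rw [Nat.le_div_iff_mul_le (by omega)]
      omega
    have h4 : n < s * (n / s + 1) := Nat.lt_mul_div_succ n (by omega)
    have h5 : n ≤ 2 * s * (n / s) := by
      have : s * (n / s + 1) ≤ s * (2 * (n / s)) := Nat.mul_le_mul_left _ (by omega)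
      have e : s * (2 * (n / s)) = 2 * s * (n / s) := by ring
      omega
    by_contra hcon
    push Not at hcon
    have h6 : (2 ^ (n / s)) ^ (2 * s) < m n ^ (2 * s) := Nat.pow_lt_pow_left hcon (by omega)
    have h7 : (2 ^ (n / s)) ^ (2 * s) = 2 ^ (2 * s * (n / s)) := by
      rw [← pow_mul]
      congr 1
      ring
    rw [h7] at h6
    have h8 : 2 ^ n ≤ 2 ^ (2 * s * (n / s)) := Nat.pow_le_pow_right (by norm_num) h5
    omega
  have hfs : ∀ s : ℕ, ∀ᶠ n in Filter.atTop, f n ^ s ≤ 2 ^ n := by
    intro s
    obtain ⟨n₀, hn₀⟩ := X9.exists_n0 (p ^ s)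
    filter_upwards [Filter.eventually_ge_atTop n₀] with n hn
    have h2 := hn₀ n hn
    rw [Polynomial.eval_pow] at h2
    exact (Nat.pow_le_pow_left (hp n) s).trans h2
  obtain ⟨n, hn1, hn2, hn3, hn4, hn5⟩ := (hfg.and_eventually
    (hev.and ((small m hm).and ((small f hfs).and (small _ hh))))).exists
  obtain ⟨k, hk⟩ : ∃ k, f n = k + 1 := ⟨f n - 1, by omega⟩
  apply hn2
  refine ⟨k, by omega, g n, by omega, m n, hn3, b, h n, hn5, fun j => ?_⟩
  have h2 := hV (xs n (2 ^ (n / 8 + 11)) j)
  rw [xs_len] at h2
  have h3 : (fun w => V (pairBits (pairBits (xs n (2 ^ (n / 8 + 11)) j) (h n)) w)) =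
      acc M A (pairBits (xs n (2 ^ (n / 8 + 11)) j) (h n)) := by
    funext w
    unfold acc
    rw [hM]
    rfl
  rw [h3] at h2
  rw [← h2]
  show _ ↔ ((sizes (xs n (2 ^ (n / 8 + 11)) j).length
    (f (xs n (2 ^ (n / 8 + 11)) j).length)).foldl (fun v a => up a v)
      (bitv A (8 * (xs n (2 ^ (n / 8 + 11)) j).length))) (xs n (2 ^ (n / 8 + 11)) j) = false
  rw [xs_len, hk]
  unfold tree
  rw [xs_len]

/-! ### Padding -/

theorem quant_congr {m : ℕ} {V W : List Bool → List Bool} : ∀ (k : ℕ) (b : Bool)
    (qs : List (List Bool)), (∀ rs : List (List Bool), rs.length = qs.length + k →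
      (V (nest rs) = [true] ↔ W (nest rs) = [true])) →
    (Quant m V k b (nest qs) ↔ Quant m W k b (nest qs)) := by
  intro k
  induction k with
  | zero =>
    intro b qs h
    exact h qs rfl
  | succ k ih =>
    intro b qs h
    have h1 : ∀ (c : Bool) (w : List Bool), Quant m V k c (pairBits w (nest qs)) ↔
        Quant m W k c (pairBits w (nest qs)) := fun c w => ih c (w :: qs) fun rs hrs =>
      h rs (by rw [hrs, List.length_cons]; omega)
    cases b with
    | true => exact exists_congr fun w => and_congr_right fun _ => h1 false w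
    | false => exact forall_congr' fun w => forall_congr' fun _ => h1 true w

theorem quant_forget0 (m : ℕ) : ∀ (d : ℕ) (V : List Bool → List Bool) (b : Bool)
    (y : List Bool), Quant m (fun z => V (forget^[d] z)) d b y ↔ V y = [true] := by
  intro d
  induction d with
  | zero => intro V b y; exact Iff.rfl
  | succ d ih =>
    intro V b y
    have h1 : ∀ (b : Bool) (w : List Bool),
        Quant m (fun z => V (forget^[d + 1] z)) d b (pairBits w y) ↔ V y = [true] := by
      intro b w
      have h2 := ih (fun z => V (forget z)) b (pairBits w y)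
      simp only [Function.iterate_succ_apply']
      rw [h2]
      unfold forget
      rw [unpair_pairBits]
    cases b with
    | true =>
      show (∃ w : List Bool, w.length ≤ m ∧ _) ↔ _
      constructor
      · rintro ⟨w, _, h⟩
        exact (h1 false w).1 h
      · intro h
        exact ⟨[], by simp, (h1 false []).2 h⟩
    | false =>
      show (∀ w : List Bool, w.length ≤ m → _) ↔ _
      constructor
      · intro h
        exact (h1 true []).1 (h [] (by simp))
      · intro h w _
        exact (h1 true w).2 h

theorem quant_forget (m d : ℕ) (V : List Bool → List Bool) : ∀ (i : ℕ) (b : Bool)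
    (y : List Bool), Quant m (fun z => V (forget^[d] z)) (i + d) b y ↔ Quant m V i b y := by
  intro i
  induction i with
  | zero =>
    intro b y
    rw [Nat.zero_add, quant_forget0]
    exact Iff.rfl
  | succ i ih =>
    intro b y
    rw [show i + 1 + d = (i + d) + 1 by omega]
    cases b with
    | true => exact exists_congr fun w => and_congr_right fun _ => ih false _
    | false => exact forall_congr' fun w => forall_congr' fun _ => ih true _

theorem length_dcd_nest (rs : List (List Bool)) : (dcd (nest rs)).length = rs.length := by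
  rw [dcd_nest, List.length_reverse]

/-- the input of the verifier with fewer strings -/
def cut (x w : List Bool) (c : ℕ) : List Bool :=
  pairBits (pairBits x []) (forget^[(dcd w).length - c] w)

theorem quant_cut {m k g : ℕ} (hk : k ≤ g) (V : List Bool → List Bool) (x : List Bool) (b : Bool) :
    Quant m (fun w => V (cut x w k)) g b [] ↔
      Quant m (fun w => V (pairBits (pairBits x []) w)) k b [] := by
  obtain ⟨d, rfl⟩ : ∃ d, g = k + d := ⟨g - k, by omega⟩
  have h1 := quant_congr (m := m) (V := fun w => V (cut x w k))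
    (W := fun w => V (pairBits (pairBits x []) (forget^[d] w))) (k + d) b [] (by
      intro rs hrs
      have : (dcd (nest rs)).length - k = d := by
        rw [length_dcd_nest, hrs, List.length_nil]
        omega
      simp only [cut, this])
  refine (show _ ↔ _ from h1).trans ?_
  exact quant_forget m d (fun w => V (pairBits (pairBits x []) w)) k b []

theorem poly_forget_iter {α : Type} [TEnc α] {w : α → List Bool} {c : α → ℕ} (hw : Poly w)
    (hc : UPoly c) : Poly (fun a => forget^[c a] (w a)) := by
  obtain ⟨q, hq⟩ := Poly.sz_le hw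
  refine (Poly.iterLen (F := fun _ z => forget z) hc hw
    ((Poly.snd poly_unpair).comp (Poly.snd Poly.id)) (4 * q + 1) ?_).congr fun a => ?_
  · intro a i _
    have h1 := length_forget i (w a)
    have h2 := sz_listBool_le (forget^[i] (w a))
    have h3 := length_lt_sz (w a)
    have h4 := hq a
    show sz (forget^[i] (w a)) ≤ _
    simp only [Polynomial.eval_add, Polynomial.eval_mul, Polynomial.eval_one,
      Polynomial.eval_ofNat]
    omega
  · rw [List.length_replicate]

theorem poly_cut {α : Type} [TEnc α] {x w : α → List Bool} {c : α → ℕ} (hx : Poly x)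
    (hw : Poly w) (hc : Poly c) : Poly (fun a => cut (x a) (w a) (c a)) := by
  have h1 : UPoly (fun a => (dcd (w a)).length) := UPoly.length (poly_dcd.comp hw)
  have h2 : UPoly (fun a => (dcd (w a)).length - c a) :=
    UPoly.of_le (Poly.sub h1.toPoly hc) h1 (fun _ => Nat.sub_le _ _)
  exact poly_pairBits (poly_pairBits hx (NPC.Poly.const [])) (poly_forget_iter hw h2)

/-- the table for the short inputs -/
noncomputable def tab (L : Set (List Bool)) (n₀ : ℕ) : List (List Bool) :=
  open Classical in ((strsLe n₀).filter (fun x => x ∈ L)).toList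

theorem mem_tab {L : Set (List Bool)} {n₀ : ℕ} {x : List Bool} (hx : x.length ≤ n₀) :
    x ∈ tab L n₀ ↔ x ∈ L := by
  classical
  unfold tab
  rw [Finset.mem_toList, Finset.mem_filter]
  exact ⟨fun h => h.2, fun h => ⟨mem_strsLe hx, h⟩⟩

theorem quant_const (m : ℕ) (v : List Bool) : ∀ (k : ℕ) (b : Bool) (y : List Bool),
    Quant m (fun _ => v) k b y ↔ v = [true] := by
  intro k
  induction k with
  | zero => intro b y; exact Iff.rfl
  | succ k ih =>
    intro b y
    cases b with
    | true =>
      constructor
      · rintro ⟨w, _, h⟩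
        exact (ih false _).1 h
      · intro h
        exact ⟨[], by simp, (ih false _).2 h⟩
    | false =>
      constructor
      · intro h
        exact (ih true _).1 (h [] (by simp))
      · intro h w _
        exact (ih true _).2 h

/-- more alternations do not hurt, if the verifier knows how many there have to be -/
theorem pad {A : Oracle} {b : Bool} {f g m m' : ℕ → ℕ} {L : Set (List Bool)}
    {h : ℕ → List Bool} (hfg : ∀ᶠ n in Filter.atTop, f n ≤ g n)
    (hm : ∀ n, m' n = m n) {c : List Bool → List Bool} (hc : IsFP A c)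
    (hcf : ∀ x, (c (pairBits x (h x.length))).length = f x.length)
    (hL : Alternating A b f m (fun _ => []) L) : Alternating A b g m' h L := by
  obtain ⟨V, hV, hVL⟩ := hL
  obtain ⟨n₀, hn₀⟩ := Filter.eventually_atTop.1 hfg
  have hu := poly_unpair
  -- the verifier
  have hF : IsFP A (fun y => c (unpair y).1) := by
    have := IsFP.comp hc (IsFP.of_poly (A := A) (F := fun y => (unpair y).1) (Poly.fst hu))
    exact this
  have hG := IsFP.seq hF hV
    (φ := fun p => cut (unpair (unpair p.1).1).1 (unpair p.1).2 p.2.length)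
    (ψ := fun p => if (unpair (unpair p.1).1).1.length < n₀ then
      [decide ((unpair (unpair p.1).1).1 ∈ tab L n₀)] else p.2.2)
    (by
      have e1 : Poly (fun p : List Bool × List Bool => (unpair (unpair p.1).1).1) :=
        Poly.fst (hu.comp (Poly.fst (hu.comp (Poly.fst Poly.id))))
      have e2 : Poly (fun p : List Bool × List Bool => (unpair p.1).2) :=
        Poly.snd (hu.comp (Poly.fst Poly.id))
      exact poly_cut e1 e2 (Poly.length (Poly.snd Poly.id)))
    (by
      have e1 : Poly (fun p : List Bool × List Bool × List Bool =>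
          (unpair (unpair p.1).1).1) :=
        Poly.fst (hu.comp (Poly.fst (hu.comp (Poly.fst Poly.id))))
      refine Poly.ite (Poly.decide_lt (Poly.length e1) (NPC.Poly.const n₀)) ?_
        (Poly.snd (Poly.snd Poly.id))
      exact Poly.cons ((Poly.decide_mem e1 (NPC.Poly.const (tab L n₀))).congr
        fun p => decide_eq_decide.2 Iff.rfl) (NPC.Poly.const []))
  refine ⟨_, hG, fun x => ?_⟩
  simp only [unpair_pairBits]
  by_cases hx : x.length < n₀
  · simp only [if_pos hx]
    rw [quant_const, List.cons.injEq, decide_eq_true_iff, mem_tab hx.le]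
    simp
  · simp only [if_neg hx, hcf, hm]
    rw [hVL x]
    exact (quant_cut (hn₀ _ (not_lt.1 hx)) V x b).symm

end Pool.Agent.Y616.AH
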