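import Pool.Agent.Y616.AH.Sz

/-! The computation of the sizes of the levels with integers. -/

set_option autoImplicit false

namespace Pool.Agent.Y616.AH

open Finset Pool.Agent.H620R2.Gauge Pool.Agent.H591R3.PHG

/-- squaring in fixed point arithmetic with `P` digits -/
def sq (P R : ℕ) : ℕ := R * R / 2 ^ P

/-- The sizes of `k + 1` levels, the last level first; `Q / 2 ^ P` is approximately the
probability that a node of the level below is true. -/
def szs (n P : ℕ) : ℕ → ℕ → List ℕ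
  | 0, Q => [Nat.size (2 ^ P / (2 * Q))]
  | k + 1, Q => Nat.size (14 * n * 2 ^ P / Q) ::
      szs n P k ((sq P)^[Nat.size (14 * n * 2 ^ P / Q)] (2 ^ P - Q))

theorem length_szs (n P : ℕ) : ∀ k Q, (szs n P k Q).length = k + 1 := by
  intro k
  induction k with
  | zero => intro Q; rfl
  | succ k ih => intro Q; simp [szs, ih]

theorem log_one_sub_close {x y : ℝ} (hx1 : x ≤ 1 / 2) (hy1 : y ≤ 1 / 2) :
    |Real.log (1 - x) - Real.log (1 - y)| ≤ 2 * |x - y| := by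
  have key : ∀ {x y : ℝ}, x ≤ 1 / 2 → y ≤ 1 / 2 →
      Real.log (1 - x) - Real.log (1 - y) ≤ 2 * |x - y| := by
    intro x y hx hy
    have h1 : 0 < 1 - x := by linarith
    have h2 : 0 < 1 - y := by linarith
    rw [← Real.log_div h1.ne' h2.ne']
    refine (Real.log_le_sub_one_of_pos (div_pos h1 h2)).trans ?_
    have h3 : (1 - x) / (1 - y) - 1 = (y - x) / (1 - y) := by
      field_simp
      ring
    rw [h3, div_le_iff₀ h2]
    have h4 := neg_abs_le (x - y)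
    have h5 := abs_nonneg (x - y)
    nlinarith
  rw [abs_le]
  have h1 := key hx1 hy1
  have h2 := key hy1 hx1
  rw [abs_sub_comm y x] at h2
  constructor <;> linarith

theorem sq_close {P R : ℕ} {ρ L η : ℝ} (hR : 0 < R) (hρ : 0 < ρ)
    (h : |Real.log (R / 2 ^ P) - Real.log ρ| ≤ L) (hη0 : 0 ≤ η) (hη1 : η ≤ 1 / 2)
    (hη : 1 / 2 ^ P ≤ η * ((R : ℝ) / 2 ^ P) ^ 2) :
    0 < sq P R ∧ |Real.log ((sq P R : ℕ) / 2 ^ P) - Real.log (ρ ^ 2)| ≤ 2 * L + 2 * η := by
  have hRr : (0 : ℝ) < R := by exact_mod_cast hR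
  have h2P : (0 : ℝ) < 2 ^ P := by positivity
  set r : ℝ := R / 2 ^ P with hr
  have hr0 : 0 < r := div_pos hRr h2P
  have h1 : ((sq P R : ℕ) : ℝ) ≤ R * R / 2 ^ P := by
    have := @Nat.cast_div_le ℝ _ _ _ (R * R) (2 ^ P)
    rw [sq]
    refine this.trans (le_of_eq ?_)
    push_cast
    rfl
  have h2 : (R : ℝ) * R / 2 ^ P < (sq P R : ℕ) + 1 := by
    have h3 := Nat.lt_succ_floor ((R : ℝ) * R / 2 ^ P)
    have h4 : ⌊(R : ℝ) * R / 2 ^ P⌋₊ = sq P R := by
      rw [sq]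
      have h5 := Nat.floor_div_eq_div (K := ℝ) (R * R) (2 ^ P)
      push_cast at h5
      exact h5
    rw [h4] at h3
    exact_mod_cast h3
  have e1 : (R : ℝ) * R / 2 ^ P / 2 ^ P = r ^ 2 := by
    rw [hr]
    field_simp
  have h3 : ((sq P R : ℕ) : ℝ) / 2 ^ P ≤ r ^ 2 := by
    rw [← e1]
    exact div_le_div_of_nonneg_right h1 h2P.le
  have h4 : r ^ 2 * (1 - η) ≤ ((sq P R : ℕ) : ℝ) / 2 ^ P := by
    have h5 : (R : ℝ) * R / 2 ^ P / 2 ^ P < ((sq P R : ℕ) + 1) / 2 ^ P :=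
      div_lt_div_of_pos_right h2 h2P
    rw [e1, add_div] at h5
    nlinarith
  have h5 : 0 < r ^ 2 * (1 - η) := mul_pos (pow_pos hr0 2) (by linarith)
  have h6 : (0 : ℝ) < ((sq P R : ℕ) : ℝ) / 2 ^ P := lt_of_lt_of_le h5 h4
  have h7 : 0 < sq P R := by
    rcases Nat.eq_zero_or_pos (sq P R) with h0 | h0
    · rw [h0] at h6
      simp at h6
    · exact h0
  refine ⟨h7, ?_⟩
  have h8 : Real.log (((sq P R : ℕ) : ℝ) / 2 ^ P) ≤ 2 * Real.log r := by
    have := Real.log_le_log h6 h3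
    rw [Real.log_pow] at this
    push_cast at this
    exact this
  have h9 : 2 * Real.log r - 2 * η ≤ Real.log (((sq P R : ℕ) : ℝ) / 2 ^ P) := by
    have h10 := Real.log_le_log h5 h4
    rw [Real.log_mul (pow_pos hr0 2).ne' (by linarith), Real.log_pow] at h10
    have h11 := log_one_sub_close (x := η) (y := 0) hη1 (by norm_num)
    rw [sub_zero, sub_zero, Real.log_one, sub_zero, abs_of_nonneg hη0] at h11
    have h12 := neg_le_of_abs_le h11
    push_cast at h10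
    linarith
  rw [Real.log_pow, abs_le]
  rw [abs_le] at h
  push_cast
  constructor <;> linarith [h.1, h.2]

/-- the error of the iterated squaring -/
theorem iter_close {P R : ℕ} {ρ L η m : ℝ} (hR : 0 < R) (hρ : 0 < ρ) (hρ1 : ρ ≤ 1)
    (hL : 0 ≤ L) (h : |Real.log (R / 2 ^ P) - Real.log ρ| ≤ L) (hη0 : 0 ≤ η) (hη1 : η ≤ 1 / 2)
    (a : ℕ) (hm : Real.exp (-m) ≤ ρ ^ (2 ^ a)) (hsum : 2 ^ a * (L + 2 * η) ≤ 1)
    (hη : 1 / 2 ^ P ≤ η * Real.exp (-(2 * (m + 1)))) :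
    ∀ i ≤ a, 0 < (sq P)^[i] R ∧
      |Real.log (((sq P)^[i] R : ℕ) / 2 ^ P) - Real.log (ρ ^ (2 ^ i))| ≤
        2 ^ i * L + (2 ^ i - 1) * (2 * η) := by
  intro i
  induction i with
  | zero =>
    intro _
    refine ⟨hR, ?_⟩
    simpa using h
  | succ i ih =>
    intro hi
    obtain ⟨h1, h2⟩ := ih (by omega)
    have hρi : 0 < ρ ^ (2 ^ i) := pow_pos hρ _
    have h3 : Real.exp (-m) ≤ ρ ^ (2 ^ i) := by
      refine hm.trans (pow_le_pow_of_le_one hρ.le hρ1 ?_)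
      exact Nat.pow_le_pow_right (by norm_num) (by omega)
    have h4 : (2 : ℝ) ^ i * L + (2 ^ i - 1) * (2 * η) ≤ 1 := by
      have h5 : (2 : ℝ) ^ i ≤ 2 ^ a := pow_le_pow_right₀ (by norm_num) (by omega)
      have h6 : (2 : ℝ) ^ i * (L + 2 * η) ≤ 2 ^ a * (L + 2 * η) :=
        mul_le_mul_of_nonneg_right h5 (by positivity)
      nlinarith
    have h2P : (0 : ℝ) < 2 ^ P := by positivity
    have h1r : (0 : ℝ) < ((sq P)^[i] R : ℕ) := by exact_mod_cast h1
    have h7 : Real.exp (-(m + 1)) ≤ ((sq P)^[i] R : ℕ) / 2 ^ P := by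
      rw [← Real.le_log_iff_exp_le (div_pos h1r h2P)]
      have h8 := (abs_le.1 h2).1
      have h9 : -m ≤ Real.log (ρ ^ (2 ^ i)) := by
        rw [Real.le_log_iff_exp_le hρi]
        exact h3
      linarith
    have h10 := sq_close (P := P) (R := (sq P)^[i] R) (ρ := ρ ^ (2 ^ i)) h1 hρi h2 hη0 hη1 (by
      refine hη.trans (mul_le_mul_of_nonneg_left ?_ hη0)
      have e : Real.exp (-(2 * (m + 1))) = (Real.exp (-(m + 1))) ^ 2 := by
        rw [← Real.exp_nat_mul]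
        congr 1
        push_cast
        ring
      rw [e]
      exact pow_le_pow_left₀ (Real.exp_pos _).le h7 2)
    rw [Function.iterate_succ_apply']
    refine ⟨h10.1, ?_⟩
    have e2 : ρ ^ (2 ^ (i + 1)) = (ρ ^ (2 ^ i)) ^ 2 := by
      rw [← pow_mul]
      congr 1
    rw [e2]
    refine h10.2.trans (le_of_eq ?_)
    rw [pow_succ]
    ring

end Pool.Agent.Y616.AH
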