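import Pool.Agent.Y616.AH.Lb
import Pool.Agent.W911.IB.Law

/-! The oracles for which some machine with fewer alternations is right. -/

set_option autoImplicit false

namespace Pool.Agent.Y616.AH

open Finset H568R2 Pool.Agent.H676 Pool.Agent.H620R2.Gauge Pool.Agent.NPC Pool.Agent.H591R3.PHG

/-- the value of the tree at the root `x`, the sizes of the last level first -/
def tree (A : Oracle) (as : List ℕ) (x : List Bool) : Bool :=
  (as.foldl (fun v a => up a v) (bitv A (8 * x.length))) x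

theorem Tr_leaves {X : Type} (A : Oracle) (xs : X → List Bool) (as : List ℕ) (w : ℕ) (j : X) :
    Tr (w :: pw as) (leaves xs as w A) j =
      (as.foldl (fun v a => up a v) (bitv A w)) (xs j) := by
  rw [← LangTrAux.Tr_addr xs as (bitv A w) j]
  show Tr (pw as) (fun g : Idx X (pw as) => decide (∀ i : Fin w,
    A (addr xs as g ++ List.replicate i.val true) = false)) j = _
  congr 1
  funext g
  unfold bitv
  congr 1
  apply propext
  constructor
  · intro h i hi
    exact h ⟨i, hi⟩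
  · intro h i
    exact h i.val i.isLt

theorem quant_QF {I : Type} {m ℓ : ℕ} {V : List Bool → List Bool} {F : List Bool → (I → Bool) → Bool}
    {a : I → Bool} (hV : ∀ y : List Bool, y.length ≤ ℓ → (V y = [true] ↔ F y a = true)) :
    ∀ (k : ℕ) (b : Bool) (y : List Bool), y.length + k * (2 * m + 1) ≤ ℓ →
      (Quant m V k b y ↔ QF m F k b y a = true) := by
  intro k
  induction k with
  | zero =>
    intro b y hy
    simp only [Quant, QF]
    exact hV y (by omega)
  | succ k ih =>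
    intro b y hy
    have hlen : ∀ w : List Bool, w.length ≤ m → (pairBits w y).length + k * (2 * m + 1) ≤ ℓ := by
      intro w hw
      rw [length_pairBits]
      have : (k + 1) * (2 * m + 1) = k * (2 * m + 1) + (2 * m + 1) := by ring
      omega
    cases b with
    | true =>
      rw [QF_ex]
      simp only [Quant]
      exact exists_congr fun w => and_congr_right fun hw => ih false _ (hlen w hw)
    | false =>
      rw [QF_all]
      simp only [Quant]
      exact forall_congr' fun w => forall_congr' fun hw => ih true _ (hlen w hw)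

/-- the property which is quantified -/
def acc (M : Alg) (A : Oracle) (z w : List Bool) : List Bool := (M.out A (pairBits z w)).getD []

/-- the machine, with `i` quantifiers, is right for all the inputs `xs n K` for the tree with
`k + 1` levels -/
def Right (M : Alg) (n K k i m : ℕ) (b : Bool) (h : List Bool) (A : Oracle) : Prop :=
  ∀ j : Fin K, (tree A (sizes n (k + 1)) (xs n K j) = false ↔
    Quant m (acc M A (pairBits (xs n K j) h)) i b [])

/-- some machine with bounds `B` is right -/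
def Bad (M : Alg) (n K B : ℕ) (A : Oracle) : Prop :=
  ∃ k ≤ B, ∃ i ≤ k, ∃ m ≤ B, ∃ (b : Bool) (h : List Bool), h.length ≤ B ∧ Right M n K k i m b h A

/-- the strings of length at most `B` -/
def strsLe (B : ℕ) : Finset (List Bool) := (Finset.range (B + 1)).biUnion strsOf

theorem mem_strsLe {B : ℕ} {h : List Bool} (hh : h.length ≤ B) : h ∈ strsLe B :=
  Finset.mem_biUnion.2 ⟨h.length, Finset.mem_range.2 (by omega), mem_strsOf h⟩

theorem length_of_mem {B : ℕ} {h : List Bool} (hh : h ∈ strsLe B) : h.length ≤ B := by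
  obtain ⟨c, hc, h1⟩ := Finset.mem_biUnion.1 hh
  obtain ⟨i, _, rfl⟩ := Finset.mem_image.1 h1
  rw [length_bitsOf]
  have := Finset.mem_range.1 hc
  omega

theorem card_strsLe (B : ℕ) : (strsLe B).card ≤ 2 ^ (2 * B) := by
  have h1 : (strsLe B).card ≤ ∑ c ∈ Finset.range (B + 1), (strsOf c).card := card_biUnion_le
  have h2 : ∑ c ∈ Finset.range (B + 1), (strsOf c).card ≤ (B + 1) * 2 ^ B := by
    refine (Finset.sum_le_card_nsmul _ _ (2 ^ B) fun c hc => ?_).trans (le_of_eq ?_)
    · exact (card_strsOf c).trans (Nat.pow_le_pow_right (by norm_num)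
        (Nat.lt_succ_iff.1 (Finset.mem_range.1 hc)))
    · rw [Finset.card_range, smul_eq_mul]
  have h3 : B + 1 ≤ 2 ^ B := Nat.lt_two_pow_self
  calc (strsLe B).card ≤ (B + 1) * 2 ^ B := h1.trans h2
    _ ≤ 2 ^ B * 2 ^ B := Nat.mul_le_mul_right _ h3
    _ = 2 ^ (2 * B) := by rw [← pow_add]; congr 1; ring

/-- the parameters -/
def tuples (B : ℕ) : Finset (ℕ × ℕ × ℕ × Bool × List Bool) :=
  Finset.range (B + 1) ×ˢ Finset.range (B + 1) ×ˢ Finset.range (B + 1) ×ˢ
    (Finset.univ : Finset Bool) ×ˢ strsLe B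

theorem card_tuples (B : ℕ) : (tuples B).card ≤ 2 ^ (5 * B + 1) := by
  have h3 : B + 1 ≤ 2 ^ B := Nat.lt_two_pow_self
  unfold tuples
  rw [card_product, card_product, card_product, card_product, card_range, Finset.card_univ,
    Fintype.card_bool]
  calc (B + 1) * ((B + 1) * ((B + 1) * (2 * (strsLe B).card)))
      ≤ 2 ^ B * (2 ^ B * (2 ^ B * (2 * 2 ^ (2 * B)))) :=
        Nat.mul_le_mul h3 (Nat.mul_le_mul h3 (Nat.mul_le_mul h3
          (Nat.mul_le_mul_left _ (card_strsLe B))))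
    _ = 2 ^ (5 * B + 1) := by
        rw [show 5 * B + 1 = B + (B + (B + (1 + 2 * B))) by ring, pow_add, pow_add, pow_add,
          pow_add, pow_one]

/-- the length of the tuples of quantified strings -/
def Lam (n B : ℕ) : ℕ := 2 * n + 1 + B + B * (2 * B + 1)

open Classical in
/-- the event for the first `N` bits -/
def Ev (M : Alg) (n K B N : ℕ) (a : Fin N → Bool) : Prop :=
  ∃ τ ∈ tuples B, τ.2.1 ≤ τ.1 ∧ ∀ j : Fin K,
    QF τ.2.2.1 (fun w => leaf M N (pairBits (pairBits (xs n K j) τ.2.2.2.2) w)) τ.2.1 τ.2.2.2.1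
      [] a ≠ Tr (8 * n :: pw (sizes n (τ.1 + 1)))
        (leaves (xs n K) (sizes n (τ.1 + 1)) (8 * n) (orc N a)) j

theorem addr_lt {n k B N K : ℕ} (hn : 5 ≤ n) (hk : k ≤ B)
    (hN : 2 ^ (n + (B + 1) * (64 * n) + 8 * n + 1) ≤ N)
    (g : Idx (Fin K) (8 * n :: pw (sizes n (k + 1)))) :
    idx (addr (xs n K) (sizes n (k + 1)) g.1 ++ List.replicate g.2.val true) < N := by
  have h1 := leaf_len (xs n K) n (fun j => xs_len n K j) (sizes n (k + 1)) (8 * n) g
  have h2 := idx_lt (addr (xs n K) (sizes n (k + 1)) g.1 ++ List.replicate g.2.val true)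
  have h4 := sum_le n (sizes n (k + 1)) (Win.le (win_sizes hn k))
  rw [length_sizes] at h4
  have h5 : (k + 1) * (64 * n) ≤ (B + 1) * (64 * n) := Nat.mul_le_mul_right _ (by omega)
  have h6 : 2 ^ ((addr (xs n K) (sizes n (k + 1)) g.1 ++
      List.replicate g.2.val true).length + 1) ≤
      2 ^ (n + (B + 1) * (64 * n) + 8 * n + 1) := by
    apply Nat.pow_le_pow_right (by norm_num)
    omega
  omega

theorem start_q {n : ℕ} (hn : 5 ≤ n) : nxt (1 / 2) (1 / 2 ^ (4 * n)) 0 (8 * n) (8 * n) law0 none /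
    2 ^ (4 * n) + nxt (1 / 2) (1 / 2 ^ (4 * n)) 0 (8 * n) (8 * n) law0 (some true) =
      1 / 2 ^ (8 * n) := by
  obtain ⟨h1, h2⟩ := nxt_law0 (w := 8 * n) (smin := 8 * n) (t' := 1 / 2 ^ (4 * n)) (by omega)
    le_rfl (by positivity)
  rw [h1, h2, add_zero, one_div_pow]
  field_simp

open Classical in
theorem ev_one (M : Alg) {n N u B : ℕ} (hn : 5 ≤ n) (hu : 8 * u ≤ n) (hun : u + 11 ≤ n)
    (hN : 2 ^ (n + (B + 1) * (64 * n) + 8 * n + 1) ≤ N)
    (hP : M.p.eval (4 * Lam n B + 2 * B + 1) ≤ 2 ^ (2 * u)) {k i m : ℕ} {b : Bool}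
    {h : List Bool} (hk : k ≤ B) (hik : i ≤ k) (hm : m ≤ B) (hh : h.length ≤ B) :
    Ex unif (fun a : Fin N → Bool => if ∀ j : Fin (2 ^ (u + 11)),
      QF m (fun w => leaf M N (pairBits (pairBits (xs n (2 ^ (u + 11)) j) h) w)) i b [] a ≠
        Tr (8 * n :: pw (sizes n (k + 1)))
          (leaves (xs n (2 ^ (u + 11))) (sizes n (k + 1)) (8 * n) (orc N a)) j
          then (1 : ℝ) else 0) ≤
      B * (2 ^ (Lam n B + 2) * (1 / 2) ^ (2 ^ (2 * u) + 1)) + 3 * (1 / 2) ^ (2 ^ u) := by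
  have hpos : ∀ g : Idx (Fin (2 ^ (u + 11))) (8 * n :: pw (sizes n (k + 1))),
      idx (addr (xs n (2 ^ (u + 11))) (sizes n (k + 1)) g.1 ++ List.replicate g.2.val true) < N :=
    fun g => addr_lt hn hk hN g
  have hwin := win_sizes hn k
  rw [← start_q hn] at hwin
  have hlaw := Win.good hn (sizes n (k + 1)) _ (inv_start hn) hwin (Fin (2 ^ (u + 11)))
    (2 ^ (3 * u + 11)) (2 ^ (u + 9)) (by
      calc 16 * 2 ^ (3 * u + 11) = 2 ^ (3 * u + 15) := by
            rw [show 3 * u + 15 = 3 * u + 11 + 4 from rfl, pow_add _ (3 * u + 11) 4]; ring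
        _ ≤ 2 ^ (4 * n) := Nat.pow_le_pow_right (by norm_num) (by omega)) (by
      rw [Fintype.card_fin]
      have : 2 ^ (u + 11) = 4 * 2 ^ (u + 9) := by
        rw [show u + 11 = u + 9 + 2 from rfl, pow_add _ (u + 9) 2]; ring
      omega)
  rw [Fintype.card_fin] at hlaw
  have hkm : k * (2 * m + 1) ≤ B * (2 * B + 1) := Nat.mul_le_mul hk (by omega)
  have hone := one M hn hu hun (length_sizes n (k + 1)) hlaw hpos h i hik b (m := m) (by
    refine le_trans (eval_mono _ ?_) hP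
    unfold Lam
    omega)
  have e : ∀ a : Fin N → Bool,
      leaves (xs n (2 ^ (u + 11))) (sizes n (k + 1)) (8 * n) (orc N a) =
        fun g => a (ps (sizes n (k + 1)) n (2 ^ (u + 11)) N hpos g) := by
    intro a
    funext g
    show orc N a (addr (xs n (2 ^ (u + 11))) (sizes n (k + 1)) g.1 ++
      List.replicate g.2.val true) = _
    unfold orc
    rw [dif_pos (hpos g)]
    rfl
  simp only [e]
  refine hone.trans ?_
  have h2 : (k : ℝ) ≤ B := by exact_mod_cast hk
  have h3 : (2 : ℝ) ^ (2 * n + 1 + h.length + k * (2 * m + 1) + 2) ≤ 2 ^ (Lam n B + 2) := by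
    apply pow_le_pow_right₀ (by norm_num)
    unfold Lam
    omega
  have h4 : (k : ℝ) * (2 ^ (2 * n + 1 + h.length + k * (2 * m + 1) + 2) *
      (1 / 2) ^ (2 ^ (2 * u) + 1)) ≤ B * (2 ^ (Lam n B + 2) * (1 / 2) ^ (2 ^ (2 * u) + 1)) :=
    mul_le_mul h2 (mul_le_mul_of_nonneg_right h3 (by positivity)) (by positivity)
      (Nat.cast_nonneg _)
  linarith

open Classical in
theorem ev_bound (M : Alg) {n N u B : ℕ} (hn : 5 ≤ n) (hu : 8 * u ≤ n) (hun : u + 11 ≤ n)
    (hN : 2 ^ (n + (B + 1) * (64 * n) + 8 * n + 1) ≤ N)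
    (hP : M.p.eval (4 * Lam n B + 2 * B + 1) ≤ 2 ^ (2 * u))
    (h1 : 6 * B + Lam n B + n + 3 ≤ 2 ^ (2 * u)) (h2 : 5 * B + n + 4 ≤ 2 ^ u) :
    Ex unif (fun a : Fin N → Bool => if Ev M n (2 ^ (u + 11)) B N a then (1 : ℝ) else 0) ≤
      (1 / 2) ^ n := by
  set K : ℕ := 2 ^ (u + 11) with hK
  set β : ℝ := B * (2 ^ (Lam n B + 2) * (1 / 2) ^ (2 ^ (2 * u) + 1)) + 3 * (1 / 2) ^ (2 ^ u)
    with hβ
  have hβ0 : 0 ≤ β := by positivity
  have hone : ∀ τ ∈ tuples B, Ex unif (fun a : Fin N → Bool => if τ.2.1 ≤ τ.1 ∧ ∀ j : Fin K,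
      QF τ.2.2.1 (fun w => leaf M N (pairBits (pairBits (xs n K j) τ.2.2.2.2) w)) τ.2.1
        τ.2.2.2.1 [] a ≠ Tr (8 * n :: pw (sizes n (τ.1 + 1)))
          (leaves (xs n K) (sizes n (τ.1 + 1)) (8 * n) (orc N a)) j then (1 : ℝ) else 0) ≤ β := by
    rintro ⟨k, i, m, b, h⟩ hτ
    unfold tuples at hτ
    simp only [mem_product, mem_range, mem_univ, true_and] at hτ
    obtain ⟨hk, hi, hm, hh⟩ := hτ
    have hh := length_of_mem hh
    simp only
    by_cases hik : i ≤ k
    · simp only [hik, true_and]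
      exact ev_one M hn hu hun hN hP (by omega) hik (by omega) hh
    · simp only [hik, false_and, if_false]
      have h0 : Ex unif (fun _ : Fin N → Bool => (0 : ℝ)) = 0 := Ex_const unif_sum 0
      rw [h0]
      exact hβ0
  have hU : Ex unif (fun a : Fin N → Bool => if Ev M n K B N a then (1 : ℝ) else 0) ≤
      ∑ τ ∈ tuples B, Ex unif (fun a : Fin N → Bool => if τ.2.1 ≤ τ.1 ∧ ∀ j : Fin K,
      QF τ.2.2.1 (fun w => leaf M N (pairBits (pairBits (xs n K j) τ.2.2.2.2) w)) τ.2.1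
        τ.2.2.2.1 [] a ≠ Tr (8 * n :: pw (sizes n (τ.1 + 1)))
          (leaves (xs n K) (sizes n (τ.1 + 1)) (8 * n) (orc N a)) j then (1 : ℝ) else 0) := by
    rw [← Ex_sum]
    apply Ex_mono unif_nonneg
    intro a
    by_cases hE : Ev M n K B N a
    · rw [if_pos hE]
      obtain ⟨τ, hτ, hτ2⟩ := hE
      refine le_trans ?_ (Finset.single_le_sum (f := fun τ : ℕ × ℕ × ℕ × Bool × List Bool =>
        if τ.2.1 ≤ τ.1 ∧ ∀ j : Fin K,
        QF τ.2.2.1 (fun w => leaf M N (pairBits (pairBits (xs n K j) τ.2.2.2.2) w)) τ.2.1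
          τ.2.2.2.1 [] a ≠ Tr (8 * n :: pw (sizes n (τ.1 + 1)))
          (leaves (xs n K) (sizes n (τ.1 + 1)) (8 * n) (orc N a)) j then (1 : ℝ) else 0)
        (fun c _ => by positivity) hτ)
      beta_reduce
      rw [if_pos hτ2]
    · rw [if_neg hE]
      exact Finset.sum_nonneg fun c _ => by positivity
  refine hU.trans ((Finset.sum_le_sum hone).trans ?_)
  rw [Finset.sum_const, nsmul_eq_mul]
  have hc : ((tuples B).card : ℝ) ≤ 2 ^ (5 * B + 1) := by exact_mod_cast card_tuples B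
  have hB : (B : ℝ) ≤ 2 ^ B := by exact_mod_cast (Nat.lt_two_pow_self (n := B)).le
  have g1 : (2 : ℝ) ^ (5 * B + 1) * (2 ^ B * (2 ^ (Lam n B + 2) * (1 / 2) ^ (2 ^ (2 * u) + 1))) ≤
      (1 / 2) ^ (n + 1) := by
    have e1 : (2 : ℝ) ^ (5 * B + 1) * (2 ^ B * (2 ^ (Lam n B + 2) *
        (1 / 2) ^ (2 ^ (2 * u) + 1))) = 2 ^ (6 * B + Lam n B + 3) * (1 / 2) ^ (2 ^ (2 * u) + 1) := by
      rw [show 6 * B + Lam n B + 3 = (5 * B + 1) + (B + (Lam n B + 2)) by ring, pow_add, pow_add]
      ring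
    rw [e1]
    have e2 : (1 / 2 : ℝ) ^ (2 ^ (2 * u) + 1) ≤ (1 / 2) ^ ((6 * B + Lam n B + 3) + (n + 1)) :=
      pow_le_pow_of_le_one (by norm_num) (by norm_num) (by omega)
    calc (2 : ℝ) ^ (6 * B + Lam n B + 3) * (1 / 2) ^ (2 ^ (2 * u) + 1)
        ≤ 2 ^ (6 * B + Lam n B + 3) * (1 / 2) ^ ((6 * B + Lam n B + 3) + (n + 1)) :=
          mul_le_mul_of_nonneg_left e2 (by positivity)
      _ = (1 / 2) ^ (n + 1) := by
          rw [pow_add (1 / 2 : ℝ), ← mul_assoc, ← mul_pow]
          norm_num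
  have g2 : (2 : ℝ) ^ (5 * B + 1) * (3 * (1 / 2) ^ (2 ^ u)) ≤ (1 / 2) ^ (n + 1) := by
    have e2 : (1 / 2 : ℝ) ^ (2 ^ u) ≤ (1 / 2) ^ ((5 * B + 3) + (n + 1)) :=
      pow_le_pow_of_le_one (by norm_num) (by norm_num) (by omega)
    calc (2 : ℝ) ^ (5 * B + 1) * (3 * (1 / 2) ^ (2 ^ u))
        ≤ 2 ^ (5 * B + 1) * (2 ^ 2 * (1 / 2) ^ ((5 * B + 3) + (n + 1))) := by
          apply mul_le_mul_of_nonneg_left _ (by positivity)
          apply mul_le_mul (by norm_num) e2 (by positivity) (by positivity)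
      _ = (1 / 2) ^ (n + 1) := by
          rw [pow_add (1 / 2 : ℝ), ← mul_assoc, ← mul_assoc, ← pow_add, ← mul_pow]
          norm_num
  have hβ2 : β ≤ 2 ^ B * (2 ^ (Lam n B + 2) * (1 / 2) ^ (2 ^ (2 * u) + 1)) +
      3 * (1 / 2) ^ (2 ^ u) := by
    rw [hβ]
    have := mul_le_mul_of_nonneg_right hB
      (show (0 : ℝ) ≤ 2 ^ (Lam n B + 2) * (1 / 2) ^ (2 ^ (2 * u) + 1) by positivity)
    linarith
  calc ((tuples B).card : ℝ) * β ≤ 2 ^ (5 * B + 1) *
      (2 ^ B * (2 ^ (Lam n B + 2) * (1 / 2) ^ (2 ^ (2 * u) + 1)) + 3 * (1 / 2) ^ (2 ^ u)) :=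
        mul_le_mul hc hβ2 hβ0 (by positivity)
    _ ≤ (1 / 2) ^ (n + 1) + (1 / 2) ^ (n + 1) := by rw [mul_add]; linarith
    _ = (1 / 2) ^ n := by rw [pow_succ]; ring

/-- a bad oracle has the property for the first bits -/
theorem bad_ev (M : Alg) : ∃ qb : Polynomial ℕ, ∀ {n K B N : ℕ}, 5 ≤ n →
    2 ^ (n + (B + 1) * (64 * n) + 8 * n + 1) ≤ N →
    2 ^ (qb.eval (2 * Lam n B + 1) + 1) ≤ N → ∀ A : Oracle, Bad M n K B A →
      Ev M n K B N (pre N A) := by
  obtain ⟨qb, hqb⟩ := Alg.out_local M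
  refine ⟨qb, fun {n K B N} hn hN1 hN2 A hA => ?_⟩
  obtain ⟨k, hk, i, hi, m, hm, b, h, hh, hR⟩ := hA
  refine ⟨(k, i, m, b, h), ?_, hi, fun j => ?_⟩
  · unfold tuples
    simp only [mem_product, mem_range, mem_univ, true_and]
    exact ⟨by omega, by omega, by omega, mem_strsLe hh⟩
  · have hV : ∀ w : List Bool, w.length ≤ B * (2 * B + 1) →
        (acc M A (pairBits (xs n K j) h) w = [true] ↔
          leaf M N (pairBits (pairBits (xs n K j) h) w) (pre N A) = true) := by
      intro w hw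
      obtain ⟨Q, _, hQl, hQA⟩ := hqb A (pairBits (pairBits (xs n K j) h) w)
      have h1 : M.out (orc N (pre N A)) (pairBits (pairBits (xs n K j) h) w) =
          M.out A (pairBits (pairBits (xs n K j) h) w) := by
        apply hQA
        intro q hq
        apply orc_pre
        have h2 := idx_lt q
        have h3 : q.length ≤ qb.eval (2 * Lam n B + 1) := by
          refine (hQl q hq).trans (eval_mono _ ?_)
          rw [length_pairBits, length_pairBits, xs_len]
          unfold Lam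
          omega
        have h4 : 2 ^ (q.length + 1) ≤ 2 ^ (qb.eval (2 * Lam n B + 1) + 1) :=
          Nat.pow_le_pow_right (by norm_num) (by omega)
        omega
      unfold leaf acc
      rw [h1, decide_eq_true_eq]
      cases M.out A (pairBits (pairBits (xs n K j) h) w) with
      | none => simp
      | some z => simp
    have him : i * (2 * m + 1) ≤ B * (2 * B + 1) := Nat.mul_le_mul (hi.trans hk) (by omega)
    have h3 := quant_QF (m := m) (a := pre N A) hV i b [] (by simpa using him)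
    have h2 : Tr (8 * n :: pw (sizes n (k + 1)))
        (leaves (xs n K) (sizes n (k + 1)) (8 * n) (orc N (pre N A))) j =
          tree A (sizes n (k + 1)) (xs n K j) := by
      have e : leaves (xs n K) (sizes n (k + 1)) (8 * n) (orc N (pre N A)) =
          leaves (xs n K) (sizes n (k + 1)) (8 * n) A := by
        funext g
        exact orc_pre (addr_lt hn hk hN1 g)
      rw [e, Tr_leaves]
      unfold tree
      rw [xs_len]
    have h4 := hR j
    rw [h3, ← h2] at h4
    intro heq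
    simp only at heq
    rw [heq] at h4
    cases hb : Tr (8 * n :: pw (sizes n (k + 1)))
        (leaves (xs n K) (sizes n (k + 1)) (8 * n) (orc N (pre N A))) j with
    | true => rw [hb] at h4; exact absurd (h4.2 rfl) (by simp)
    | false => rw [hb] at h4; exact absurd (h4.1 rfl) (by simp)

end Pool.Agent.Y616.AH
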