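import Pool.Agent.Y616.AH.Cq
import Pool.Agent.H591R3.PHG.Event

/-! The lower bound for one machine and one advice string. -/

set_option autoImplicit false

namespace Pool.Agent.Y616.AH

open Finset H568R2 Pool.Agent.H676 Pool.Agent.H620R2.Gauge Pool.Agent.NPC Pool.Agent.H591R3.PHG
open Pool.Agent.H591R3.PHG.LangSig (length_unpair)

/-- the base string and the nested quantified strings -/
def split : ℕ → List Bool → List Bool × List Bool
  | 0, z => (z, [])
  | i + 1, z => ((split i (unpair z).2).1, pairBits (unpair z).1 (split i (unpair z).2).2)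

/-- forget the last quantified string -/
def forget (z : List Bool) : List Bool := (unpair z).2

theorem length_split (i : ℕ) : ∀ z, (split i z).1.length + (split i z).2.length ≤ 2 * z.length + i := by
  induction i with
  | zero => intro z; simp [split]; omega
  | succ i ih =>
    intro z
    have h1 := ih (unpair z).2
    have h2 := length_unpair z
    simp only [split, length_pairBits]
    omega

theorem length_forget (d : ℕ) (z : List Bool) : (forget^[d] z).length ≤ z.length := by
  induction d with
  | zero => exact le_rfl
  | succ d ih =>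
    rw [Function.iterate_succ_apply']
    have h1 := length_unpair (forget^[d] z)
    have h2 : (forget (forget^[d] z)).length ≤ (forget^[d] z).length := by
      show (unpair (forget^[d] z)).2.length ≤ _
      omega
    exact h2.trans ih

variable {I : Type}

theorem QF_ex {m : ℕ} {F : List Bool → (I → Bool) → Bool} {k : ℕ} {y : List Bool}
    {a : I → Bool} : QF m F (k + 1) true y a = true ↔
      ∃ w : List Bool, w.length ≤ m ∧ QF m F k false (pairBits w y) a = true := by
  simp only [QF, decide_eq_true_eq]

theorem QF_all {m : ℕ} {F : List Bool → (I → Bool) → Bool} {k : ℕ} {y : List Bool}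
    {a : I → Bool} : QF m F (k + 1) false y a = true ↔
      ∀ w : List Bool, w.length ≤ m → QF m F k true (pairBits w y) a = true := by
  simp only [QF, decide_eq_true_eq]

theorem QF_forget0 (m : ℕ) : ∀ (d : ℕ) (F : List Bool → (I → Bool) → Bool) (b : Bool)
    (y : List Bool), QF m (fun z => F (forget^[d] z)) d b y = F y := by
  intro d
  induction d with
  | zero => intro F b y; rfl
  | succ d ih =>
    intro F b y
    have h1 : ∀ (b : Bool) (w : List Bool),
        QF m (fun z => F (forget^[d + 1] z)) d b (pairBits w y) = F y := by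
      intro b w
      have h2 := ih (fun z => F (forget z)) b (pairBits w y)
      simp only [Function.iterate_succ_apply']
      rw [h2]
      unfold forget
      rw [unpair_pairBits]
    funext a
    cases b with
    | true =>
      rw [Bool.eq_iff_iff, QF_ex]
      simp only [h1]
      constructor
      · rintro ⟨_, _, h⟩
        exact h
      · intro h
        exact ⟨[], by simp, h⟩
    | false =>
      rw [Bool.eq_iff_iff, QF_all]
      simp only [h1]
      constructor
      · intro h
        exact h [] (by simp)
      · intro h _ _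
        exact h

theorem QF_forget (m d : ℕ) (F : List Bool → (I → Bool) → Bool) : ∀ (i : ℕ) (b : Bool)
    (y : List Bool), QF m (fun z => F (forget^[d] z)) (i + d) b y = QF m F i b y := by
  intro i
  induction i with
  | zero =>
    intro b y
    rw [Nat.zero_add, QF_forget0]
    cases b <;> rfl
  | succ i ih =>
    intro b y
    rw [show i + 1 + d = (i + d) + 1 by omega]
    funext a
    cases b with
    | true =>
      rw [Bool.eq_iff_iff, QF_ex, QF_ex]
      simp only [ih]
    | false =>
      rw [Bool.eq_iff_iff, QF_all, QF_all]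
      simp only [ih]

theorem QF_split (m : ℕ) (G : List Bool × List Bool → (I → Bool) → Bool) (y : List Bool) :
    ∀ (r i : ℕ) (b : Bool) (z w : List Bool), split i z = (y, w) →
      QF m (fun z => G (split (i + r) z)) r b z = QF m (fun w => G (y, w)) r b w := by
  intro r
  induction r with
  | zero =>
    intro i b z w h
    show G (split (i + 0) z) = G (y, w)
    rw [Nat.add_zero, h]
  | succ r ih =>
    intro i b z w h
    have h1 : ∀ (b : Bool) (q : List Bool),
        QF m (fun z => G (split (i + (r + 1)) z)) r b (pairBits q z) =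
          QF m (fun w => G (y, w)) r b (pairBits q w) := by
      intro b q
      have h2 := ih (i + 1) b (pairBits q z) (pairBits q w) (by
        simp only [split, unpair_pairBits, h])
      rw [show i + 1 + r = i + (r + 1) by omega] at h2
      exact h2
    funext a
    cases b with
    | true =>
      rw [Bool.eq_iff_iff, QF_ex, QF_ex]
      simp only [h1]
    | false =>
      rw [Bool.eq_iff_iff, QF_all, QF_all]
      simp only [h1]

/-- the input of the verifier, from the nested string with `i + d` quantified strings -/
def conv (i d : ℕ) (z : List Bool) : List Bool :=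
  pairBits (split i (forget^[d] z)).1 (split i (forget^[d] z)).2

theorem length_conv (i d : ℕ) (z : List Bool) :
    (conv i d z).length ≤ 4 * z.length + 2 * i + 1 := by
  unfold conv
  rw [length_pairBits]
  have h1 := length_split i (forget^[d] z)
  have h2 := length_forget d z
  omega

theorem QF_conv (m i d : ℕ) (F : List Bool → (I → Bool) → Bool) (b : Bool) (y : List Bool) :
    QF m (fun z => F (conv i d z)) (i + d) b y = QF m (fun w => F (pairBits y w)) i b [] := by
  have h1 := QF_forget m d (fun z => F (pairBits (split i z).1 (split i z).2)) i b y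
  have h2 := QF_split m (fun p => F (pairBits p.1 p.2)) y i 0 b y [] rfl
  rw [Nat.zero_add] at h2
  exact h1.trans h2

/-- the inputs -/
def xs (n K : ℕ) (j : Fin K) : List Bool := bitsOf n j.val

theorem xs_len (n K : ℕ) (j : Fin K) : (xs n K j).length = n := length_bitsOf _ _

theorem xs_inj (n K : ℕ) (hK : K ≤ 2 ^ n) : Function.Injective (xs n K) := by
  intro j j' h
  exact Fin.ext (bitsOf_inj (lt_of_lt_of_le j.2 hK) (lt_of_lt_of_le j'.2 hK) h)

/-- the position of a leaf -/
def ps (as : List ℕ) (n K N : ℕ) (hN : ∀ g : Idx (Fin K) (8 * n :: pw as),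
    idx (addr (xs n K) as g.1 ++ List.replicate g.2.val true) < N)
    (g : Idx (Fin K) (8 * n :: pw as)) : Fin N :=
  ⟨idx (addr (xs n K) as g.1 ++ List.replicate g.2.val true), hN g⟩

theorem ps_inj (as : List ℕ) (n K N : ℕ) (hN : ∀ g : Idx (Fin K) (8 * n :: pw as),
    idx (addr (xs n K) as g.1 ++ List.replicate g.2.val true) < N) (hK : K ≤ 2 ^ n) :
    Function.Injective (ps as n K N hN) := by
  intro g g' h
  have h1 : idx (addr (xs n K) as g.1 ++ List.replicate g.2.val true) =
      idx (addr (xs n K) as g'.1 ++ List.replicate g'.2.val true) := by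
    simpa [ps] using h
  have h2 : addr (xs n K) as g.1 ++ List.replicate g.2.val true =
      addr (xs n K) as g'.1 ++ List.replicate g'.2.val true := by
    rw [← str_idx (addr (xs n K) as g.1 ++ List.replicate g.2.val true), h1, str_idx]
  exact leaf_inj (xs n K) (xs_inj n K hK) _ (fun j => xs_len n K j) as (8 * n) h2

open Classical in
/-- **the bound for one advice string** -/
theorem one (M : Alg) {n N u k m : ℕ} (hn : 5 ≤ n) (hu : 8 * u ≤ n) (hun : u + 11 ≤ n)
    {as : List ℕ} (hk : as.length = k + 1)
    (hlaw : Ex (nxt (1 / 2) (1 / 2 ^ (4 * n)) 0 (8 * n) (8 * n) law0)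
      (Wt (X := Fin (2 ^ (u + 11))) (1 / 2 ^ (4 * n)) (1 / 2 ^ (2 * n)) (8 * n * 2 ^ (4 * n))
        (1 / 256) (2 ^ (3 * u + 11)) (2 ^ (u + 9)) (pw as)) ≤ (9 / 10) ^ (2 ^ (u + 11)))
    (hN : ∀ g : Idx (Fin (2 ^ (u + 11))) (8 * n :: pw as),
      idx (addr (xs n (2 ^ (u + 11))) as g.1 ++ List.replicate g.2.val true) < N)
    (h : List Bool) (i : ℕ) (hi : i ≤ k) (b : Bool)
    (hP : M.p.eval (4 * (2 * n + 1 + h.length + k * (2 * m + 1)) + 2 * k + 1) ≤ 2 ^ (2 * u)) :
    Ex unif (fun a : Fin N → Bool => if ∀ j : Fin (2 ^ (u + 11)),
      QF m (fun w => leaf M N (pairBits (pairBits (xs n (2 ^ (u + 11)) j) h) w)) i b [] a ≠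
        Tr (8 * n :: pw as) (fun g => a (ps as n (2 ^ (u + 11)) N hN g)) j then (1 : ℝ) else 0) ≤
      k * (2 ^ (2 * n + 1 + h.length + k * (2 * m + 1) + 2) * (1 / 2) ^ (2 ^ (2 * u) + 1)) +
        3 * (1 / 2) ^ (2 ^ u) := by
  set K : ℕ := 2 ^ (u + 11) with hK
  have hKn : K ≤ 2 ^ n := Nat.pow_le_pow_right (by norm_num) (by omega)
  have hinj := ps_inj as n K N hN hKn
  obtain ⟨d, hd⟩ : ∃ d, k = i + d := ⟨k - i, by omega⟩
  rw [Ex_overwrite (ps as n K N hN) hinj]
  have hlen : ∀ j, (pairBits (xs n K j) h).length ≤ 2 * n + 1 + h.length := by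
    intro j
    rw [length_pairBits, xs_len]
  have hkey : ∀ a : Fin N → Bool, Ex (ber (1 / 2)) (fun z : Idx (Fin K) (8 * n :: pw as) → Bool =>
      (fun a : Fin N → Bool => if ∀ j : Fin K,
        QF m (fun w => leaf M N (pairBits (pairBits (xs n K j) h) w)) i b [] a ≠
          Tr (8 * n :: pw as) (fun g => a (ps as n K N hN g)) j then (1 : ℝ) else 0)
        (fun i => if h : ∃ j, ps as n K N hN j = i then z h.choose else a i)) ≤
      k * (2 ^ (2 * n + 1 + h.length + k * (2 * m + 1) + 2) * (1 / 2) ^ (2 ^ (2 * u) + 1)) +
        3 * (1 / 2) ^ (2 ^ u) := by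
    intro a
    set F : List Bool → (Idx (Fin K) (8 * n :: pw as) → Bool) → Bool := fun y z =>
      leaf M N (conv i d y) (fun i => if h : ∃ j, ps as n K N hN j = i then z h.choose else a i)
      with hF
    have hFd : ∀ y : List Bool, y.length ≤ 2 * n + 1 + h.length + k * (2 * m + 1) →
        DTr (2 ^ (2 * u)) (F y) := by
      intro y hy
      have h1 : DTr (M.p.eval (conv i d y).length) (leaf M N (conv i d y)) := dtr_out M N _
      have h2 : M.p.eval (conv i d y).length ≤ 2 ^ (2 * u) := by
        refine le_trans (eval_mono _ ?_) hP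
        refine (length_conv i d y).trans ?_
        omega
      exact DTr_overwrite (ps as n K N hN) a (h1.mono h2)
    have hcard : 2 ^ (2 * u) * Fintype.card (Fin K) ≤ 2 ^ (3 * u + 11) := by
      rw [Fintype.card_fin, hK, ← pow_add]
      exact Nat.pow_le_pow_right (by norm_num) (by omega)
    have hlen2 : (pw as).length = k + 1 := by
      rw [pw, List.length_map]; exact hk
    have h1 := main_leaf (X := Fin K) (n := n) (u := u) (D := 2 ^ (3 * u + 11)) (g := 2 ^ (u + 9))
      hn hu hcard k (pw as) hlen2 m (2 * n + 1 + h.length) F hFd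
      (fun j => pairBits (xs n K j) h) hlen b
    have h2 := final_numbers hn hu
    refine le_trans (le_of_eq ?_) (h1.trans ?_)
    · unfold Ms
      congr 1
      funext z
      have e1 : (fun g => (fun i => if h : ∃ j, ps as n K N hN j = i then z h.choose else a i)
          (ps as n K N hN g)) = val (fun _ => none) z := by
        funext g
        have hex : ∃ j, ps as n K N hN j = ps as n K N hN g := ⟨g, rfl⟩
        show (if h : ∃ j, ps as n K N hN j = ps as n K N hN g then z h.choose else
          a (ps as n K N hN g)) = z g
        rw [dif_pos hex]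
        exact congrArg z (hinj hex.choose_spec)
      have e3 : ∀ j : Fin K, QF m (fun w => leaf M N (pairBits (pairBits (xs n K j) h) w)) i b []
          (fun i => if h : ∃ j, ps as n K N hN j = i then z h.choose else a i) =
          QF m F k b (pairBits (xs n K j) h) z := by
        intro j
        rw [hF, hd]
        rw [← QF_comp m (fun y => leaf M N (conv i d y)) (fun z i =>
          if h : ∃ j, ps as n K N hN j = i then z h.choose else a i)]
        exact (congrFun (QF_conv m i d (leaf M N) b (pairBits (xs n K j) h)) _).symm
      have e2 : (∀ j : Fin K,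
          QF m (fun w => leaf M N (pairBits (pairBits (xs n K j) h) w)) i b []
          (fun i => if h : ∃ j, ps as n K N hN j = i then z h.choose else a i) ≠
          Tr (8 * n :: pw as) (fun g => (fun i =>
            if h : ∃ j, ps as n K N hN j = i then z h.choose else a i) (ps as n K N hN g)) j) ↔
          ∀ j : Fin K, QF m F k b (pairBits (xs n K j) h) z ≠
            Tr (8 * n :: pw as) (val (fun _ => none) z) j := by
        refine forall_congr' fun j => ?_
        rw [e1, e3 j]
      by_cases hz : ∀ j : Fin K, QF m F k b (pairBits (xs n K j) h) z ≠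
            Tr (8 * n :: pw as) (val (fun _ => none) z) j
      · rw [if_pos hz]
        exact if_pos (e2.2 hz)
      · rw [if_neg hz]
        exact if_neg fun h => hz (e2.1 h)
    · linarith
  refine (Ex_mono unif_nonneg hkey).trans (le_of_eq ?_)
  exact Ex_const unif_sum _

end Pool.Agent.Y616.AH
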