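import Pool.Agent.Y616.AH.Ps

/-! The main theorem. -/

set_option autoImplicit false

namespace Pool.Agent.Y616.AH

open MeasureTheory Filter Pool.Agent.H620R2.Gauge Pool.Agent.NPC Pool.Agent.H622R2
open Pool.Agent.H591R3.PHG Pool.Agent.W911.IB

/-- `f` is bounded by a polynomial. -/
def PolyBounded (f : ℕ → ℕ) : Prop := ∃ p : Polynomial ℕ, ∀ n, f n ≤ p.eval n

/-- `f n = 2 ^ o(n)`. -/
def Subexp (f : ℕ → ℕ) : Prop := ∀ s : ℕ, ∀ᶠ n in atTop, f n ^ s ≤ 2 ^ n

/-- The number `f n` can be computed (in unary notation) from a string of length `n` in polynomial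
time relative to the oracle `A`. -/
def Constructible (A : Oracle) (f : ℕ → ℕ) : Prop :=
  IsFP A fun x => List.replicate (f x.length) true

/-- The languages that are decided, relative to `A`, in polynomial time with `f n` alternating
blocks of quantifiers, the first one existential. -/
def AP (A : Oracle) (f : ℕ → ℕ) (L : Set (List Bool)) : Prop :=
  ∃ p : Polynomial ℕ, Alternating A true f (fun n => p.eval n) (fun _ => []) L

/-- The same with polynomial advice. -/
def APpoly (A : Oracle) (f : ℕ → ℕ) (L : Set (List Bool)) : Prop :=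
  ∃ (p : Polynomial ℕ) (h : ℕ → List Bool), PolyBounded (fun n => (h n).length) ∧
    Alternating A true f (fun n => p.eval n) h L

/-- The same with subexponential advice and subexponentially long quantified strings, the first
block being existential or universal. -/
def ASubexp (A : Oracle) (f : ℕ → ℕ) (L : Set (List Bool)) : Prop :=
  ∃ (b : Bool) (m : ℕ → ℕ) (h : ℕ → List Bool), Subexp m ∧ Subexp (fun n => (h n).length) ∧
    Alternating A b f m h L

theorem PolyBounded.subexp {f : ℕ → ℕ} (hf : PolyBounded f) : Subexp f := by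
  obtain ⟨p, hp⟩ := hf
  intro s
  obtain ⟨n₀, hn₀⟩ := X9.exists_n0 (p ^ s)
  filter_upwards [eventually_ge_atTop n₀] with n hn
  have h2 := hn₀ n hn
  rw [Polynomial.eval_pow] at h2
  exact (Nat.pow_le_pow_left (hp n) s).trans h2

theorem poly_bounded_eval (p : Polynomial ℕ) : PolyBounded (fun n => p.eval n) :=
  ⟨p, fun _ => le_rfl⟩

theorem Constructible.polyBounded {A : Oracle} {f : ℕ → ℕ} (hf : Constructible A f) :
    PolyBounded f := by
  obtain ⟨M, hM⟩ := hf
  obtain ⟨b, hb⟩ := A2.out_bound M
  refine ⟨b, fun n => ?_⟩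
  have h1 := hb A (List.replicate n true) _ (hM _)
  simpa using h1

theorem AP.toPoly {A : Oracle} {g : ℕ → ℕ} {L : Set (List Bool)} (h : AP A g L) :
    APpoly A g L := by
  obtain ⟨p, hp⟩ := h
  exact ⟨p, fun _ => [], ⟨0, fun n => by simp⟩, hp⟩

theorem APpoly.toSubexp {A : Oracle} {g : ℕ → ℕ} {L : Set (List Bool)} (h : APpoly A g L) :
    ASubexp A g L := by
  obtain ⟨p, h, hh, hp⟩ := h
  exact ⟨true, _, h, (poly_bounded_eval p).subexp, hh.subexp, hp⟩

theorem AP.pad {A : Oracle} {f g : ℕ → ℕ} {L : Set (List Bool)} (hf : PolyBounded f)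
    (hfg : ∀ᶠ n in atTop, f n ≤ g n) (hL : AP A f L) : APpoly A g L := by
  obtain ⟨p, hp⟩ := hL
  refine ⟨p, fun n => List.replicate (f n) true, by simpa using hf, ?_⟩
  refine AH.pad (h := fun n => List.replicate (f n) true) hfg (fun _ => rfl)
    (IsFP.of_poly (A := A) (F := fun y => (unpair y).2) (Poly.snd poly_unpair)) (fun x => ?_) hp
  rw [unpair_pairBits]
  simp

theorem AP.padU {A : Oracle} {f g : ℕ → ℕ} {L : Set (List Bool)} (hf : Constructible A f)
    (hfg : ∀ᶠ n in atTop, f n ≤ g n) (hL : AP A f L) : AP A g L := by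
  obtain ⟨p, hp⟩ := hL
  refine ⟨p, ?_⟩
  have hc : IsFP A (fun y => List.replicate (f (unpair y).1.length) true) :=
    IsFP.comp hf (IsFP.of_poly (A := A) (F := fun y => (unpair y).1) (Poly.fst poly_unpair))
  refine AH.pad (h := fun _ => []) hfg (fun _ => rfl) hc (fun x => ?_) hp
  rw [unpair_pairBits]
  simp

theorem pspace_of_AP {A : Oracle} {f : ℕ → ℕ} (hf : Constructible A f) {L : Set (List Bool)}
    (hL : AP A f L) : IsPSPACE A L := by
  obtain ⟨P, hP⟩ := hf.polyBounded
  obtain ⟨p, V, hV, hVL⟩ := hL.padU (g := fun n => P.eval n) hf (Eventually.of_forall hP)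
  have h := alt_pspace hV P p
  have e : {x | Quant (p.eval x.length) (fun w => V (pairBits (pairBits x []) w))
      (P.eval x.length) true []} = L := by
    ext x
    exact (hVL x).symm
  rwa [e] at h

/-- the measure of fair coin tosses -/
theorem coin_half : coin half = (PMF.uniformOfFintype Bool).toMeasure := by
  refine Measure.ext_of_singleton fun b => ?_
  rw [coin_singleton, PMF.toMeasure_apply_singleton _ _ (MeasurableSet.singleton b),
    PMF.uniformOfFintype_apply]
  have h1 : (if b then ((half : unitInterval) : ℝ) else 1 - ((half : unitInterval) : ℝ)) =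
      (2 : ℝ)⁻¹ := by
    unfold half
    split_ifs <;> norm_num
  rw [h1, ENNReal.ofReal_inv_of_pos (by norm_num)]
  simp

theorem law_half : law (fun _ => half) =
    Measure.infinitePi (fun _ : List Bool => (PMF.uniformOfFintype Bool).toMeasure) := by
  unfold law
  congr 1
  funext w
  exact coin_half

/-- **The alternation hierarchy between the polynomial hierarchy and polynomial space relative to
a random oracle.** -/
theorem main : ∀ᵐ A ∂(Measure.infinitePi
      (fun _ : List Bool => (PMF.uniformOfFintype Bool).toMeasure) : Measure Oracle),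
    (∀ f g : ℕ → ℕ, PolyBounded f → List.TFAE [
      ∀ᶠ n in atTop, f n ≤ g n,
      ∀ L, AP A f L → APpoly A g L,
      ∀ L, AP A f L → ASubexp A g L]) ∧
    (∀ f g : ℕ → ℕ, Constructible A f →
      ((∀ L, AP A f L → AP A g L) ↔ ∀ᶠ n in atTop, f n ≤ g n)) ∧
    (∀ f : ℕ → ℕ, Constructible A f → ∀ L, AP A f L → IsPSPACE A L) ∧
    ∀ g : ℕ → ℕ, PolyBounded g → ∃ L, IsPSPACE A L ∧ ¬ ASubexp A g L := by
  rw [← law_half]
  filter_upwards [not_subexp] with A hA
  -- the hard language
  have key : ∀ f g : ℕ → ℕ, PolyBounded f → (∀ L, AP A f L → ASubexp A g L) →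
      ∀ᶠ n in atTop, f n ≤ g n := by
    intro f g hf h
    by_contra hcon
    rw [Filter.not_eventually] at hcon
    simp only [not_le] at hcon
    obtain ⟨p, hp⟩ := hf
    obtain ⟨q, hq⟩ := mem_AP A hp
    obtain ⟨b, m, a, hm, ha, hL⟩ := h (lang f A) ⟨q, hq⟩
    exact hA f g m a b ⟨p, hp⟩ hcon hm ha hL
  refine ⟨fun f g hf => ?_, fun f g hf => ⟨fun h => ?_, fun h L hL => hL.padU hf h⟩,
    fun f hf L hL => pspace_of_AP hf hL, fun g hg => ?_⟩
  · tfae_have 1 → 2 := fun h L hL => hL.pad hf h
    tfae_have 2 → 3 := fun h L hL => (h L hL).toSubexp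
    tfae_have 3 → 1 := key f g hf
    tfae_finish
  · exact key f g hf.polyBounded fun L hL => (h L hL).toPoly.toSubexp
  · obtain ⟨P, hP⟩ := hg
    have h1 : ∀ n, (fun n => (P + 1).eval n) n ≤ (P + 1).eval n := fun _ => le_rfl
    obtain ⟨q, V, hV, hVL⟩ := mem_AP A h1
    refine ⟨lang (fun n => (P + 1).eval n) A, ?_, ?_⟩
    · have h := alt_pspace hV (P + 1) q
      have e : {x | Quant (q.eval x.length) (fun w => V (pairBits (pairBits x []) w))
          ((P + 1).eval x.length) true []} = lang (fun n => (P + 1).eval n) A := by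
        ext x
        exact (hVL x).symm
      rwa [e] at h
    · rintro ⟨b, m, a, hm, ha, hL⟩
      refine hA _ g m a b ⟨P + 1, fun _ => le_rfl⟩ (Eventually.frequently
        (Eventually.of_forall fun n => ?_)) hm ha hL
      have h2 := hP n
      simp only [Polynomial.eval_add, Polynomial.eval_one]
      omega

end Pool.Agent.Y616.AH
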