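import Pool.Agent.Y616.AH.Cp
import Pool.Agent.NPC.Num

/-! The sizes of the levels can be computed in polynomial time. -/

set_option autoImplicit false

namespace Pool.Agent.Y616.AH

open Pool.Agent.NPC

variable {α : Type} [TEnc α]

theorem uconst_mul {n : α → ℕ} (hn : UPoly n) (c : ℕ) : UPoly (fun a => c * n a) :=
  UPoly.mul (UPoly.const c) hn

theorem poly_two_pow {k : α → ℕ} (hk : UPoly k) : Poly (fun a => 2 ^ k a) := by
  have h1 : Poly (fun a => (List.replicate (k a) ()).map (fun _ => false)) :=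
    NPC.Poly.map (F := fun _ _ => false) hk (NPC.Poly.const false)
  have h2 : Poly (fun a => (List.replicate (k a) ()).map (fun _ => false) ++ [true]) :=
    Poly.append h1 (NPC.Poly.const [true])
  refine (Poly.valBits h2).congr fun a => ?_
  rw [List.map_replicate, valB_replicate_false]
  simp

theorem poly_size {n : α → ℕ} (hn : Poly n) : Poly (fun a => Nat.size (n a)) :=
  (Poly.length (Poly.natBits hn)).congr fun a => Nat.size_eq_bits_len _

theorem upoly_size {n : α → ℕ} (hn : Poly n) : UPoly (fun a => Nat.size (n a)) :=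
  (UPoly.length (Poly.natBits hn)).congr fun a => by
    show List.replicate (n a).bits.length () = List.replicate (n a).size ()
    rw [Nat.size_eq_bits_len]

theorem sq_le {P R : ℕ} (h : R ≤ 2 ^ P) : sq P R ≤ 2 ^ P := by
  unfold sq
  calc R * R / 2 ^ P ≤ R * 2 ^ P / 2 ^ P := Nat.div_le_div_right (Nat.mul_le_mul_left _ h)
    _ = R := Nat.mul_div_cancel _ (by positivity)
    _ ≤ 2 ^ P := h

theorem sq_iter_le {P R : ℕ} (h : R ≤ 2 ^ P) (i : ℕ) : (sq P)^[i] R ≤ 2 ^ P := by
  induction i with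
  | zero => exact h
  | succ i ih =>
    rw [Function.iterate_succ_apply']
    exact sq_le ih

theorem sz_le_two_pow {m P : ℕ} (h : m ≤ 2 ^ P) : sz m ≤ 4 * (P + 1) + 1 := by
  refine (sz_nat_le m).trans ?_
  have h1 : m.size ≤ P + 1 := by
    rw [Nat.size_le]
    calc m ≤ 2 ^ P := h
      _ < 2 ^ (P + 1) := Nat.pow_lt_pow_right (by norm_num) (by omega)
  omega

theorem UPoly.bound {k : α → ℕ} (hk : UPoly k) : ∃ p : Polynomial ℕ, ∀ a, k a ≤ p.eval (sz a) := by
  obtain ⟨p, hp⟩ := Poly.sz_le hk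
  refine ⟨p, fun a => ?_⟩
  have h1 := length_lt_sz (List.replicate (k a) ())
  rw [List.length_replicate] at h1
  exact h1.le.trans (hp a)

theorem poly_sq_iter {P i R : α → ℕ} (hP : UPoly P) (hi : UPoly i) (hR : Poly R)
    (hle : ∀ a, R a ≤ 2 ^ P a) : Poly (fun a => (sq (P a))^[i a] (R a)) := by
  obtain ⟨p, hp⟩ := UPoly.bound hP
  have hF : Poly (fun q : α × ℕ => sq (P q.1) q.2) :=
    Poly.div (Poly.mul (Poly.snd Poly.id) (Poly.snd Poly.id))
      (poly_two_pow (hP.comp (Poly.fst Poly.id)))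
  refine (Poly.iterLen (F := fun a R => sq (P a) R) hi hR hF
    (Polynomial.C 4 * (p + 1) + 1) ?_).congr fun a => ?_
  · intro a k _
    have h1 := sz_le_two_pow (sq_iter_le (hle a) k)
    refine h1.trans ?_
    have := hp a
    simp only [Polynomial.eval_add, Polynomial.eval_mul, Polynomial.eval_C, Polynomial.eval_one]
    omega
  · rw [List.length_replicate]

/-- one level -/
def step (n P : ℕ) (s : ℕ × List ℕ) : ℕ × List ℕ :=
  ((sq P)^[Nat.size (14 * n * 2 ^ P / s.1)] (2 ^ P - s.1), Nat.size (14 * n * 2 ^ P / s.1) :: s.2)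

theorem step_iter (n P : ℕ) : ∀ (k Q : ℕ) (acc : List ℕ),
    Nat.size (2 ^ P / (2 * ((step n P)^[k] (Q, acc)).1)) :: ((step n P)^[k] (Q, acc)).2 =
      (szs n P k Q).reverse ++ acc := by
  intro k
  induction k with
  | zero => intro Q acc; rfl
  | succ k ih =>
    intro Q acc
    rw [Function.iterate_succ_apply]
    have h1 := ih (step n P (Q, acc)).1 (step n P (Q, acc)).2
    rw [Prod.mk.eta] at h1
    rw [h1, szs, List.reverse_cons]
    simp [step]

theorem size_le_bound (n P Q : ℕ) : Nat.size (14 * n * 2 ^ P / Q) ≤ 14 * n + P := by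
  rw [Nat.size_le]
  calc 14 * n * 2 ^ P / Q ≤ 14 * n * 2 ^ P := Nat.div_le_self _ _
    _ < 2 ^ (14 * n) * 2 ^ P := Nat.mul_lt_mul_of_pos_right Nat.lt_two_pow_self (by positivity)
    _ = 2 ^ (14 * n + P) := (pow_add _ _ _).symm

theorem step_iter_le (n P : ℕ) (k Q : ℕ) (hQ : Q ≤ 2 ^ P) :
    ((step n P)^[k] (Q, [])).1 ≤ 2 ^ P ∧ ((step n P)^[k] (Q, [])).2.length = k ∧
      ∀ a ∈ ((step n P)^[k] (Q, [])).2, a ≤ 14 * n + P := by
  induction k with
  | zero => exact ⟨hQ, rfl, by simp⟩
  | succ k ih =>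
    rw [Function.iterate_succ_apply']
    obtain ⟨h1, h2, h3⟩ := ih
    refine ⟨?_, ?_, ?_⟩
    · exact sq_iter_le (Nat.sub_le _ _) _
    · simp [step, h2]
    · intro a ha
      rcases List.mem_cons.1 ha with rfl | ha
      · exact size_le_bound _ _ _
      · exact h3 a ha

theorem poly_step {n P : α → ℕ} (hn : UPoly n) (hP : UPoly P) :
    Poly (fun q : α × ℕ × List ℕ => step (n q.1) (P q.1) q.2) := by
  have hn' : UPoly (fun q : α × ℕ × List ℕ => n q.1) := hn.comp (Poly.fst Poly.id)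
  have hP' : UPoly (fun q : α × ℕ × List ℕ => P q.1) := hP.comp (Poly.fst Poly.id)
  have hQ : Poly (fun q : α × ℕ × List ℕ => q.2.1) := Poly.fst (Poly.snd Poly.id)
  have h2 := poly_two_pow hP'
  have h3 : Poly (fun q : α × ℕ × List ℕ =>
      Nat.size (14 * n q.1 * 2 ^ P q.1 / q.2.1)) :=
    poly_size (Poly.div (Poly.mul (uconst_mul hn' 14).toPoly h2) hQ)
  have h4 : UPoly (fun q : α × ℕ × List ℕ =>
      Nat.size (14 * n q.1 * 2 ^ P q.1 / q.2.1)) :=
    UPoly.of_le h3 (UPoly.add (uconst_mul hn' 14) hP') (fun q => size_le_bound _ _ _)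
  exact Poly.pair (poly_sq_iter hP' h4 (Poly.sub h2 hQ) (fun q => Nat.sub_le _ _))
    (Poly.cons h3 (Poly.snd (Poly.snd Poly.id)))

theorem poly_szs {n P k Q : α → ℕ} (hn : UPoly n) (hP : UPoly P) (hk : UPoly k) (hQ : Poly Q)
    (hle : ∀ a, Q a ≤ 2 ^ P a) : Poly (fun a => (szs (n a) (P a) (k a) (Q a)).reverse) := by
  obtain ⟨pn, hpn⟩ := UPoly.bound hn
  obtain ⟨pP, hpP⟩ := UPoly.bound hP
  obtain ⟨pk, hpk⟩ := UPoly.bound hk
  have h1 : Poly (fun a => (step (n a) (P a))^[(List.replicate (k a) ()).length] (Q a, [])) := by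
    refine Poly.iterLen (F := fun a s => step (n a) (P a) s) hk
      (Poly.pair hQ (NPC.Poly.const [])) (poly_step hn hP)
      (Polynomial.C 4 * (pP + 1) + 1 +
        (pk * (Polynomial.C 4 * (Polynomial.C 14 * pn + pP) + 2) + 1) + 1) ?_
    intro a i hi
    rw [List.length_replicate] at hi
    obtain ⟨g1, g2, g3⟩ := step_iter_le (n a) (P a) i (Q a) (hle a)
    have e1 := sz_le_two_pow g1
    have e2 : sz ((step (n a) (P a))^[i] (Q a, [])).2 ≤
        i * (4 * (14 * n a + P a) + 1 + 1) + 1 := by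
      have := sz_le_length_mul ((step (n a) (P a))^[i] (Q a, [])).2
        (4 * (14 * n a + P a) + 1) (fun b hb => by
          refine (sz_nat_le b).trans ?_
          have h5 := Poly.size_le_self b
          have h6 := g3 b hb
          omega)
      rwa [g2] at this
    have e3 : sz ((step (n a) (P a))^[i] (Q a, [])) =
        sz ((step (n a) (P a))^[i] (Q a, [])).1 + sz ((step (n a) (P a))^[i] (Q a, [])).2 + 1 :=
      sz_pair _ _
    rw [e3]
    have b1 := hpn a
    have b2 := hpP a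
    have b3 := hpk a
    simp only [Polynomial.eval_add, Polynomial.eval_mul, Polynomial.eval_C, Polynomial.eval_one,
      Polynomial.eval_ofNat]
    have e4 : i * (4 * (14 * n a + P a) + 1 + 1) ≤
        pk.eval (sz a) * (4 * (14 * pn.eval (sz a) + pP.eval (sz a)) + 2) :=
      Nat.mul_le_mul (by omega) (by omega)
    omega
  have h2 : Poly (fun a => Nat.size (2 ^ P a / (2 *
      ((step (n a) (P a))^[(List.replicate (k a) ()).length] (Q a, [])).1)) ::
      ((step (n a) (P a))^[(List.replicate (k a) ()).length] (Q a, [])).2) :=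
    Poly.cons (poly_size (Poly.div (poly_two_pow hP) (Poly.mul (NPC.Poly.const 2) (Poly.fst h1))))
      (Poly.snd h1)
  refine h2.congr fun a => ?_
  rw [List.length_replicate, step_iter, List.append_nil]

end Pool.Agent.Y616.AH
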