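import Pool.Agent.Y616.AH.Cl
import Pool.Agent.H620R2.Gauge.U1

/-! Polynomially many alternations can be evaluated in polynomial space. -/

set_option autoImplicit false

namespace Pool.Agent.Y616.AH

open Pool.Agent.H620R2.Gauge Pool.Agent.NPC Pool.Agent.H622R2
open Pool.Agent.H620R2.Gauge.U1 (cand exists_cand length_cand bits_length_mono poly_cand)

/-- The state of the evaluation: the numbers of the strings chosen so far (the last one first), the
value (`[]` or `[v]`), and the answers of the oracle. -/
abbrev St3 : Type := List ℕ × List Bool × List Bool

/-- the decoded memory -/
def d3 (s : List Bool) : St3 := (unbits St3 s).getD ([], [], [])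

theorem d3_nil : d3 [] = ([], [], []) := rfl

theorem d3_bits (t : St3) : d3 (bits t) = t := by
  unfold d3
  rw [unbits_bits]
  rfl

theorem poly_d3 : Poly d3 := Poly.optGetD poly_unbits (NPC.Poly.const _)

/-- the input of the leaf algorithm -/
def lin (x : List Bool) (st : List ℕ) : List Bool := pairBits (pairBits x []) (nest (st.map cand))

/-- the action of the leaf algorithm -/
def lact (D : List Bool → List Bool) (x : List Bool) (t : St3) : List Bool :=
  D (pairBits (lin x t.1) t.2.2)

/-- the type of the quantifier at depth `d` -/
def typ (d : ℕ) : Bool := decide (d % 2 = 0)

theorem typ_succ (d : ℕ) : typ (d + 1) = !typ d := by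
  unfold typ
  rcases Nat.mod_two_eq_zero_or_one d with h | h
  · have h2 : (d + 1) % 2 = 1 := by omega
    simp [h, h2]
  · have h2 : (d + 1) % 2 = 0 := by omega
    simp [h, h2]

/-- the next action -/
def tact (D : List Bool → List Bool) (k : ℕ) (x : List Bool) (t : St3) : List Bool :=
  if t.2.1 = [] then
    (if t.1.length < k then [false]
      else if (lact D x t).head? = some false then lact D x t else [false])
  else if t.1 = [] then [true, t.2.1.head?.getD false] else [false]

/-- the next state -/
def tnext (D : List Bool → List Bool) (k β : ℕ) (x : List Bool) (b : Bool) (t : St3) : St3 :=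
  if t.2.1 = [] then
    (if t.1.length < k then (1 :: t.1, [], [])
      else if (lact D x t).head? = some false then (t.1, [], t.2.2 ++ [b])
        else (t.1, [decide (lact D x t = [true, true])], []))
  else if t.2.1.head?.getD false = typ t.1.tail.length ∨
      β + 1 < (t.1.head?.getD 0 + 1).bits.length then
    (t.1.tail, [t.2.1.head?.getD false], [])
  else ((t.1.head?.getD 0 + 1) :: t.1.tail, [], [])

theorem poly_nest : Poly nest := by
  have hf : ∀ (l : List (List Bool)), l.foldr (fun q w => pairBits q w) [] = nest l := by
    intro l
    induction l with
    | nil => rfl
    | cons q l ih => rw [List.foldr_cons, ih]; rfl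
  have hlen : ∀ l : List (List Bool), (nest l).length = 2 * (l.map List.length).sum + l.length := by
    intro l
    induction l with
    | nil => rfl
    | cons q l ih =>
      rw [nest, length_pairBits, ih, List.map_cons, List.sum_cons, List.length_cons]
      ring
  have hsz : ∀ l : List (List Bool), 2 * (l.map List.length).sum + l.length ≤ sz l := by
    intro l
    induction l with
    | nil => simp
    | cons q l ih =>
      have := sz_listBool_ge q
      simp only [List.map_cons, List.sum_cons, List.length_cons, sz_list_cons]
      omega
  refine (Poly.foldr (l := fun l : List (List Bool) => l) (s := fun _ => ([] : List Bool))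
    (F := fun _ q w => pairBits q w) Poly.id (NPC.Poly.const [])
    (poly_pairBits (Poly.fst (Poly.snd Poly.id)) (Poly.snd (Poly.snd Poly.id)))
    (4 * Polynomial.X + 1) ?_).congr hf
  intro l k _
  rw [hf]
  have h1 := sz_listBool_le (nest (l.drop k))
  have h2 := hlen (l.drop k)
  have h3 := hsz (l.drop k)
  have h4 := NPC.Poly.sz_drop_le l k
  simp only [Polynomial.eval_add, Polynomial.eval_mul, Polynomial.eval_X, Polynomial.eval_one,
    Polynomial.eval_ofNat]
  omega

section poly

variable {α : Type} [TEnc α]

theorem poly_lact {D : List Bool → List Bool} (hD : Poly D) {x : α → List Bool} {t : α → St3}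
    (hx : Poly x) (ht : Poly t) : Poly (fun a => lact D (x a) (t a)) := by
  have h1 : Poly (fun a => nest (((t a).1).map cand)) :=
    poly_nest.comp (NPC.Poly.map (F := fun _ n => cand n) (Poly.fst ht)
      (poly_cand.comp (Poly.snd Poly.id)))
  exact hD.comp (poly_pairBits (poly_pairBits (poly_pairBits hx (NPC.Poly.const [])) h1)
    (Poly.snd (Poly.snd ht)))

theorem poly_hd {l : α → List Bool} (hl : Poly l) : Poly (fun a => (l a).head?.getD false) :=
  Poly.optGetD (Poly.head? hl) (NPC.Poly.const false)

theorem poly_hdN {l : α → List ℕ} (hl : Poly l) : Poly (fun a => (l a).head?.getD 0) :=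
  Poly.optGetD (Poly.head? hl) (NPC.Poly.const 0)

theorem poly_tact {D : List Bool → List Bool} (hD : Poly D) {k : α → ℕ} {x : α → List Bool}
    {t : α → St3} (hk : Poly k) (hx : Poly x) (ht : Poly t) :
    Poly (fun a => tact D (k a) (x a) (t a)) := by
  have hl := poly_lact hD hx ht
  have h1 : Poly (fun a => (t a).1) := Poly.fst ht
  have h2 : Poly (fun a => (t a).2.1) := Poly.fst (Poly.snd ht)
  unfold tact
  refine Poly.ite (Poly.decide_eq h2 (NPC.Poly.const [])) ?_ ?_
  · refine Poly.ite (Poly.decide_lt (Poly.length h1) hk) (NPC.Poly.const [false]) ?_
    exact Poly.ite (Poly.decide_eq (Poly.head? hl) (NPC.Poly.const (some false))) hl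
      (NPC.Poly.const [false])
  · exact Poly.ite (Poly.decide_eq h1 (NPC.Poly.const []))
      (Poly.cons (NPC.Poly.const true) (Poly.cons (poly_hd h2) (NPC.Poly.const [])))
      (NPC.Poly.const [false])

theorem poly_tnext {D : List Bool → List Bool} (hD : Poly D) {k β : α → ℕ} {x : α → List Bool}
    {b : α → Bool} {t : α → St3} (hk : Poly k) (hβ : Poly β) (hx : Poly x) (hb : Poly b)
    (ht : Poly t) : Poly (fun a => tnext D (k a) (β a) (x a) (b a) (t a)) := by
  have hl := poly_lact hD hx ht
  have h1 : Poly (fun a => (t a).1) := Poly.fst ht
  have h2 : Poly (fun a => (t a).2.1) := Poly.fst (Poly.snd ht)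
  have h3 : Poly (fun a => (t a).2.2) := Poly.snd (Poly.snd ht)
  have h4 : Poly (fun a => typ (t a).1.tail.length) :=
    Poly.decide_eq (Poly.mod (Poly.length (Poly.tail h1)) (NPC.Poly.const 2)) (NPC.Poly.const 0)
  have h5 : Poly (fun a => ((t a).1.head?.getD 0 + 1).bits.length) :=
    Poly.length (Poly.natBits (Poly.succ (poly_hdN h1)))
  have h0 : Poly (fun _ : α => ([] : List Bool)) := NPC.Poly.const []
  unfold tnext
  refine Poly.ite (Poly.decide_eq h2 (NPC.Poly.const [])) ?_ ?_
  · refine Poly.ite (Poly.decide_lt (Poly.length h1) hk)
      (Poly.pair (Poly.cons (NPC.Poly.const 1) h1) (Poly.pair h0 h0)) ?_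
    refine Poly.ite (Poly.decide_eq (Poly.head? hl) (NPC.Poly.const (some false)))
      (Poly.pair h1 (Poly.pair h0 (Poly.append h3 (Poly.cons hb h0)))) ?_
    exact Poly.pair h1 (Poly.pair (Poly.cons (Poly.decide_eq hl (NPC.Poly.const [true, true])) h0)
      h0)
  · refine Poly.ite (Poly.decide_or (Poly.decide_eq (poly_hd h2) h4)
      (Poly.decide_lt (Poly.succ hβ) h5)) ?_ ?_
    · exact Poly.pair (Poly.tail h1) (Poly.pair (Poly.cons (poly_hd h2) h0) h0)
    · exact Poly.pair (Poly.cons (Poly.succ (poly_hdN h1)) (Poly.tail h1)) (Poly.pair h0 h0)

end poly

theorem lt_two_pow_iff (n β : ℕ) : n.bits.length ≤ β + 1 ↔ n < 2 ^ (β + 1) := by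
  rw [Nat.size_eq_bits_len, Nat.size_le]

/-- **Evaluation in polynomial space.** -/
theorem alt_pspace {A : Oracle} {V : List Bool → List Bool} (hV : IsFP A V)
    (K p : Polynomial ℕ) : IsPSPACE A {x | Quant (p.eval x.length)
      (fun w => V (pairBits (pairBits x []) w)) (K.eval x.length) true []} := by
  obtain ⟨M, hM⟩ := hV
  have hD : Poly M.D := poly_of_polyTime M.poly
  have hu := poly_unpair
  have hk : Poly (fun v : List Bool => K.eval (unpair v).1.length) :=
    (UPoly.eval (UPoly.length (Poly.fst hu)) K).toPoly
  have hβ : Poly (fun v : List Bool => p.eval (unpair v).1.length) :=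
    (UPoly.eval (UPoly.length (Poly.fst hu)) p).toPoly
  have hact : Poly (fun v : List Bool => tact M.D (K.eval (unpair v).1.length) (unpair v).1
      (d3 (unpair v).2)) :=
    poly_tact hD hk (Poly.fst hu) (poly_d3.comp (Poly.snd hu))
  have hnext : Poly (fun v : List Bool => tnext M.D (K.eval (unpair v).1.length)
      (p.eval (unpair v).1.length) (unpair v).1 ((unpair v).2.head?.getD false)
      (d3 (unpair v).2.tail)) :=
    poly_tnext hD hk hβ (Poly.fst hu) (poly_hd (Poly.snd hu))
      (poly_d3.comp (Poly.tail (Poly.snd hu)))
  let N : SAlg := ⟨_, polyTime_of_poly_list hact, _, polyTime_bits hnext⟩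
  -- the bound for the number of answers
  set Lp : Polynomial ℕ := 2 * (2 * Polynomial.X + 1) + 1 + K * (2 * p + 1) with hLp
  set q : Polynomial ℕ := K * (4 * (p + 1) + 2) + 1 + 5 + (4 * M.p.comp Lp + 1) + 2 with hq
  refine ⟨N, q, fun x => ?_⟩
  set k := K.eval x.length with hkd
  set β := p.eval x.length with hβd
  have eact : ∀ s, N.act (pairBits x s) = tact M.D k x (d3 s) := by
    intro s
    show tact M.D (K.eval (unpair (pairBits x s)).1.length) (unpair (pairBits x s)).1
      (d3 (unpair (pairBits x s)).2) = _
    rw [unpair_pairBits]
  have enext : ∀ b s, N.next (pairBits x (b :: s)) = bits (tnext M.D k β x b (d3 s)) := by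
    intro b s
    show bits (tnext M.D (K.eval (unpair (pairBits x (b :: s))).1.length)
      (p.eval (unpair (pairBits x (b :: s))).1.length) (unpair (pairBits x (b :: s))).1
      ((unpair (pairBits x (b :: s))).2.head?.getD false)
      (d3 (unpair (pairBits x (b :: s))).2.tail)) = _
    rw [unpair_pairBits]
    rfl
  -- one step
  have hstep : ∀ s, N.Reach A x s → ∀ r, tact M.D k x (d3 s) = false :: r →
      ∃ s', N.Reach A x s' ∧ d3 s' = tnext M.D k β x (A r) (d3 s) := by
    intro s hs r hr
    have h1 := SAlg.Reach.step hs ((eact s).trans hr)
    refine ⟨_, h1, ?_⟩
    rw [enext, d3_bits]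
  constructor
  · -- the memory
    have hlin : ∀ st : List ℕ, st.length = k → (∀ n ∈ st, n.bits.length ≤ β + 1) →
        (lin x st).length ≤ Lp.eval x.length := by
      intro st h1 h2
      have h3 : ∀ st : List ℕ, (∀ n ∈ st, n.bits.length ≤ β + 1) →
          (nest (st.map cand)).length ≤ st.length * (2 * β + 1) := by
        intro st
        induction st with
        | nil => intro _; simp [nest]
        | cons n st ih =>
          intro h
          have h4 := ih fun n hn => h n (List.mem_cons_of_mem _ hn)
          have h5 := h n List.mem_cons_self
          rw [List.map_cons, nest, length_pairBits, length_cand, List.length_cons]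
          have : (st.length + 1) * (2 * β + 1) = st.length * (2 * β + 1) + (2 * β + 1) := by ring
          omega
      have h4 := h3 st h2
      unfold lin
      rw [length_pairBits, length_pairBits]
      rw [h1] at h4
      simp only [hLp, Polynomial.eval_add, Polynomial.eval_mul, Polynomial.eval_X,
        Polynomial.eval_one, Polynomial.eval_ofNat, List.length_nil]
      rw [← hkd, ← hβd]
      omega
    have inv : ∀ s, N.Reach A x s → (d3 s).1.length ≤ k ∧
        (∀ n ∈ (d3 s).1, n.bits.length ≤ β + 1) ∧ (d3 s).2.1.length ≤ 1 ∧
        (s = [] ∨ s = bits (d3 s)) ∧
        (((d3 s).2.1 = [] ∧ (d3 s).1.length = k ∧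
          (d3 s).2.2.length ≤ M.p.eval (lin x (d3 s).1).length ∧
          M.run A (lin x (d3 s).1) (M.p.eval (lin x (d3 s).1).length - (d3 s).2.2.length)
            (d3 s).2.2 ≠ none) ∨ (d3 s).2.2 = []) := by
      intro s hs
      induction hs with
      | start =>
        rw [d3_nil]
        exact ⟨by simp, by simp, by simp, Or.inl rfl, Or.inr rfl⟩
      | @step s r hs hr ih =>
        obtain ⟨h1, h2, h3, h4, h5⟩ := ih
        rw [eact] at hr
        rw [enext, d3_bits]
        generalize d3 s = t at h1 h2 h3 h5 hr
        obtain ⟨st, rv, a⟩ := t
        simp only at h1 h2 h3 h5
        unfold tact at hr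
        unfold tnext
        simp only at hr ⊢
        by_cases c1 : rv = []
        · rw [if_pos c1] at hr ⊢
          by_cases c2 : st.length < k
          · rw [if_pos c2]
            refine ⟨by simpa using c2, ?_, by simp, Or.inr (by simp), Or.inr (by simp)⟩
            intro n hn
            rcases List.mem_cons.1 hn with rfl | hn
            · simp
            · exact h2 n hn
          · rw [if_neg c2] at hr ⊢
            by_cases c3 : (lact M.D x (st, rv, a)).head? = some false
            · rw [if_pos c3] at hr ⊢
              refine ⟨h1, h2, by simp, Or.inr (by simp), Or.inl ⟨rfl,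
                (by show st.length = k; omega), ?_⟩⟩
              have h6 : a.length ≤ M.p.eval (lin x st).length ∧
                  M.run A (lin x st) (M.p.eval (lin x st).length - a.length) a ≠ none := by
                rcases h5 with h5 | h5
                · exact ⟨h5.2.2.1, h5.2.2.2⟩
                · rw [h5]
                  refine ⟨by simp, ?_⟩
                  have h7 := hM (lin x st)
                  unfold Alg.out at h7
                  rw [List.length_nil, Nat.sub_zero, h7]
                  simp
              obtain ⟨h7, h8⟩ := h6
              obtain ⟨c, hc⟩ : ∃ c, M.p.eval (lin x st).length - a.length = c + 1 := by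
                refine ⟨M.p.eval (lin x st).length - a.length - 1, ?_⟩
                by_contra hcon
                have : M.p.eval (lin x st).length - a.length = 0 := by omega
                rw [this] at h8
                exact h8 rfl
              rw [hc] at h8
              have h9 : M.D (pairBits (lin x st) a) = false :: r := hr
              rw [Alg.run, h9] at h8
              simp only at h8 ⊢
              rw [List.length_append, List.length_singleton]
              refine ⟨by omega, ?_⟩
              have e : M.p.eval (lin x st).length - (a.length + 1) = c := by omega
              rw [e]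
              exact h8
            · rw [if_neg c3] at hr ⊢
              exact ⟨h1, h2, by simp, Or.inr (by simp), Or.inr (by simp)⟩
        · rw [if_neg c1] at hr ⊢
          by_cases c2 : st = []
          · rw [if_pos c2] at hr
            simp at hr
          · obtain ⟨n, st, rfl⟩ := List.exists_cons_of_ne_nil c2
            by_cases c3 : rv.head?.getD false = typ (n :: st).tail.length ∨
                β + 1 < ((n :: st).head?.getD 0 + 1).bits.length
            · rw [if_pos c3]
              refine ⟨?_, fun i hi => h2 i (List.mem_cons_of_mem _ hi), by simp, Or.inr (by simp),
                Or.inr (by simp)⟩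
              simp only [List.length_cons, List.tail_cons] at h1 ⊢
              omega
            · rw [if_neg c3]
              push Not at c3
              refine ⟨by simpa using h1, ?_, by simp, Or.inr (by simp), Or.inr (by simp)⟩
              intro i hi
              rcases List.mem_cons.1 hi with rfl | hi
              · exact c3.2
              · exact h2 i (List.mem_cons_of_mem _ hi)
    intro s hs
    obtain ⟨h1, h2, h3, h4, h5⟩ := inv s hs
    rcases h4 with h4 | h4
    · rw [h4]
      simp
    · rw [h4, bits_length]
      generalize d3 s = t at h1 h2 h3 h5
      obtain ⟨st, rv, a⟩ := t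
      simp only at h1 h2 h3 h5
      rw [sz_pair, sz_pair]
      have e1 := sz_le_length_mul st (4 * (β + 1) + 1) (fun n hn => by
        refine (sz_nat_le n).trans ?_
        have := h2 n hn
        rw [Nat.size_eq_bits_len] at this
        omega)
      have e2 := sz_listBool_le rv
      have e3 := sz_listBool_le a
      have e4 : a.length ≤ M.p.eval (Lp.eval x.length) := by
        rcases h5 with h5 | h5
        · exact h5.2.2.1.trans (eval_mono _ (hlin st h5.2.1 h2))
        · rw [h5]
          simp
      have e5 : st.length * (4 * (β + 1) + 1 + 1) ≤ k * (4 * (β + 1) + 2) :=
        Nat.mul_le_mul h1 (by omega)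
      simp only [hq, Polynomial.eval_add, Polynomial.eval_mul, Polynomial.eval_comp,
        Polynomial.eval_one, Polynomial.eval_ofNat]
      rw [← hkd, ← hβd]
      omega
  · -- the simulation of the algorithm at the leaves
    have sim : ∀ (n : ℕ) (st : List ℕ) (a z : List Bool) (s : List Bool), st.length = k →
        N.Reach A x s → d3 s = (st, [], a) → M.run A (lin x st) n a = some z →
        ∃ s', N.Reach A x s' ∧ d3 s' = (st, [decide (z = [true])], []) := by
      intro n
      induction n with
      | zero => intro st a z s _ _ _ h; simp [Alg.run] at h
      | succ n ih =>
        intro st a z s hst hs hd hrun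
        have hnlt : ¬ st.length < k := by omega
        rw [Alg.run] at hrun
        rcases hDr : M.D (pairBits (lin x st) a) with _ | ⟨c, r⟩
        · rw [hDr] at hrun
          simp only [Option.some.injEq] at hrun
          have h1 : tact M.D k x (d3 s) = [false] := by
            rw [hd]
            simp [tact, hnlt, lact, hDr]
          obtain ⟨s', h2, h3⟩ := hstep s hs [] h1
          refine ⟨s', h2, ?_⟩
          rw [h3, hd, ← hrun]
          simp [tnext, hnlt, lact, hDr]
        · cases c with
          | true =>
            rw [hDr] at hrun
            simp only [Option.some.injEq] at hrun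
            have h1 : tact M.D k x (d3 s) = [false] := by
              rw [hd]
              simp [tact, hnlt, lact, hDr]
            obtain ⟨s', h2, h3⟩ := hstep s hs [] h1
            refine ⟨s', h2, ?_⟩
            rw [h3, hd, ← hrun]
            simp [tnext, hnlt, lact, hDr]
          | false =>
            rw [hDr] at hrun
            simp only at hrun
            have h1 : tact M.D k x (d3 s) = false :: r := by
              rw [hd]
              simp [tact, hnlt, lact, hDr]
            obtain ⟨s', h2, h3⟩ := hstep s hs r h1
            refine ih st (a ++ [A r]) z s' hst h2 ?_ hrun
            rw [h3, hd]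
            simp [tnext, hnlt, lact, hDr]
    -- the evaluation of the game
    set W : List Bool → List Bool := fun w => V (pairBits (pairBits x []) w) with hW
    classical
    have eval : ∀ (j : ℕ) (st : List ℕ) (s : List Bool), st.length + j = k →
        N.Reach A x s → d3 s = (st, [], []) →
        ∃ s', N.Reach A x s' ∧ d3 s' =
          (st, [decide (Quant β W j (typ st.length) (nest (st.map cand)))], []) := by
      intro j
      induction j with
      | zero =>
        intro st s hst hs hd
        have h1 := hM (lin x st)
        obtain ⟨s', h2, h3⟩ := sim _ st [] (V (lin x st)) s (by omega) hs hd h1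
        refine ⟨s', h2, ?_⟩
        have e : decide (V (lin x st) = [true]) =
            decide (Quant β W 0 (typ st.length) (nest (st.map cand))) :=
          decide_eq_decide.2 Iff.rfl
        rw [h3, e]
      | succ j ih =>
        intro st s hst hs hd
        have hlt : st.length < k := by omega
        have h1 : tact M.D k x (d3 s) = [false] := by
          rw [hd]
          simp [tact, hlt]
        obtain ⟨s₁, h2, h3⟩ := hstep s hs [] h1
        have h4 : d3 s₁ = (1 :: st, [], []) := by
          rw [h3, hd]
          simp [tnext, hlt]
        -- the values of the sons
        set val : ℕ → Bool := fun n =>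
          decide (Quant β W j (!typ st.length) (pairBits (cand n) (nest (st.map cand)))) with hval
        have key : ∀ (r n : ℕ) (s : List Bool), n + r + 1 = 2 ^ (β + 1) → 1 ≤ n →
            N.Reach A x s → d3 s = (n :: st, [], []) →
            (∀ i, 1 ≤ i → i < n → val i ≠ typ st.length) →
            ∃ s', N.Reach A x s' ∧ d3 s' =
              (st, [decide (Quant β W (j + 1) (typ st.length) (nest (st.map cand)))], []) := by
          intro r
          induction r with
          | zero =>
            intro n s hn hn1 hs hd hprev
            obtain ⟨s', g1, g2⟩ := ih (n :: st) s (by simp; omega) hs hd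
            have g3 : d3 s' = (n :: st, [val n], []) := by
              rw [g2, List.length_cons, typ_succ]
              rfl
            have g4 : tact M.D k x (d3 s') = [false] := by
              rw [g3]
              simp [tact]
            obtain ⟨s'', g5, g6⟩ := hstep s' g1 [] g4
            have hlast : β + 1 < (n + 1).bits.length := by
              by_contra hcon
              have := (lt_two_pow_iff (n + 1) β).1 (by omega)
              omega
            refine ⟨s'', g5, ?_⟩
            rw [g6, g3]
            have e1 : tnext M.D k β x (A []) (n :: st, [val n], []) = (st, [val n], []) := by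
              simp [tnext, hlast]
            rw [e1]
            congr 3
            -- all the sons are known
            have hall : ∀ w : List Bool, w.length ≤ β → ∃ i, 1 ≤ i ∧ i ≤ n ∧ cand i = w := by
              intro w hw
              obtain ⟨i, i1, i2, i3⟩ := exists_cand w
              have i4 := (lt_two_pow_iff i β).1 (by omega)
              exact ⟨i, i1, by omega, i3⟩
            have hcn : (cand n).length ≤ β := by
              rw [length_cand]
              have := (lt_two_pow_iff n β).2 (by omega)
              omega
            cases ht : typ st.length with
            | true =>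
              rw [ht] at hprev
              show val n = decide (∃ w : List Bool, w.length ≤ β ∧
                Quant β W j false (pairBits w (nest (st.map cand))))
              have hv : ∀ i, val i = decide (Quant β W j false
                  (pairBits (cand i) (nest (st.map cand)))) := by
                intro i
                rw [hval]
                simp only [ht, Bool.not_true]
              rw [hv n]
              refine decide_eq_decide.2 ⟨fun h => ⟨cand n, hcn, h⟩, ?_⟩
              rintro ⟨w, hw, h⟩
              obtain ⟨i, i1, i2, rfl⟩ := hall w hw
              rcases Nat.lt_or_ge i n with hi | hi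
              · have h7 := hprev i i1 hi
                rw [hv i] at h7
                exact absurd (decide_eq_true h) h7
              · have e : i = n := by omega
                rw [← e]
                exact h
            | false =>
              rw [ht] at hprev
              show val n = decide (∀ w : List Bool, w.length ≤ β →
                Quant β W j true (pairBits w (nest (st.map cand))))
              have hv : ∀ i, val i = decide (Quant β W j true
                  (pairBits (cand i) (nest (st.map cand)))) := by
                intro i
                rw [hval]
                simp only [ht, Bool.not_false]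
              rw [hv n]
              refine decide_eq_decide.2 ⟨?_, fun h => h (cand n) hcn⟩
              intro h w hw
              obtain ⟨i, i1, i2, rfl⟩ := hall w hw
              rcases Nat.lt_or_ge i n with hi | hi
              · have h7 := hprev i i1 hi
                rw [hv i] at h7
                by_contra hc
                exact h7 (decide_eq_false hc)
              · have e : i = n := by omega
                rw [e]
                exact h
          | succ r ihr =>
            intro n s hn hn1 hs hd hprev
            obtain ⟨s', g1, g2⟩ := ih (n :: st) s (by simp; omega) hs hd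
            have g3 : d3 s' = (n :: st, [val n], []) := by
              rw [g2, List.length_cons, typ_succ]
              rfl
            have g4 : tact M.D k x (d3 s') = [false] := by
              rw [g3]
              simp [tact]
            obtain ⟨s'', g5, g6⟩ := hstep s' g1 [] g4
            have hmore : ¬ β + 1 < (n + 1).bits.length := by
              have := (lt_two_pow_iff (n + 1) β).2 (by omega)
              omega
            have hcn : (cand n).length ≤ β := by
              rw [length_cand]
              have := (lt_two_pow_iff n β).2 (by omega)
              omega
            by_cases hvt : val n = typ st.length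
            · refine ⟨s'', g5, ?_⟩
              rw [g6, g3]
              have e1 : tnext M.D k β x (A []) (n :: st, [val n], []) = (st, [val n], []) := by
                simp [tnext, hvt]
              rw [e1]
              congr 3
              cases ht : typ st.length with
              | true =>
                have hv : Quant β W j false (pairBits (cand n) (nest (st.map cand))) := by
                  have h7 := hvt
                  rw [hval] at h7
                  simp only [ht, Bool.not_true, decide_eq_true_iff] at h7
                  exact h7
                rw [hvt, ht]
                symm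
                rw [decide_eq_true_iff]
                exact ⟨cand n, hcn, hv⟩
              | false =>
                have hv : ¬ Quant β W j true (pairBits (cand n) (nest (st.map cand))) := by
                  have h7 := hvt
                  rw [hval] at h7
                  simp only [ht, Bool.not_false, decide_eq_false_iff_not] at h7
                  exact h7
                rw [hvt, ht]
                symm
                rw [decide_eq_false_iff_not]
                exact fun h => hv (h (cand n) hcn)
            · refine ihr (n + 1) s'' (by omega) (by omega) g5 ?_ ?_
              · rw [g6, g3]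
                simp [tnext, hvt, hmore]
              · intro i i1 i2
                rcases Nat.lt_or_ge i n with hi | hi
                · exact hprev i i1 hi
                · have : i = n := by omega
                  rw [this]
                  exact hvt
        have hpos : 2 ≤ 2 ^ (β + 1) := by
          calc 2 = 2 ^ 1 := rfl
            _ ≤ 2 ^ (β + 1) := Nat.pow_le_pow_right (by norm_num) (by omega)
        exact key (2 ^ (β + 1) - 2) 1 s₁ (by omega) le_rfl h2 h4 (fun i h5 h6 => by omega)
    obtain ⟨s', h1, h2⟩ := eval k [] [] (by simp) SAlg.Reach.start d3_nil
    refine ⟨s', [decide (Quant β W k true [])], h1, ?_, ?_⟩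
    · rw [eact, h2]
      simp [tact, typ, nest]
    · simp only [Set.mem_ofPred_eq]
      constructor
      · intro h
        rw [decide_eq_true h]
      · intro h
        simpa using h

end Pool.Agent.Y616.AH
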